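import Pool.Agent.H201.Hz.Lin
import Pool.Graph.R_pool_sql_team_seeded_620a6dc7.H207.WH.Tao

/-!
# Uncertainty principles and the main criterion
-/

set_option autoImplicit false

namespace Pool.Agent.H201.Hz

open Complex ZMod Filter Topology Set

variable {N : ℕ} [NeZero N]

/-- finite Fourier transform -/
noncomputable def ft (g : ZMod N → ℂ) (k : ZMod N) : ℂ := ∑ x, g x * stdAddChar (x * k)

theorem sum_char (y : ZMod N) :
    ∑ k : ZMod N, (stdAddChar (k * y) : ℂ) = if y = 0 then (N : ℂ) else 0 := by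
  rw [AddChar.sum_mulShift y (isPrimitive_stdAddChar N), ZMod.card]
  split_ifs <;> simp

theorem ft_inv (g : ZMod N → ℂ) (y : ZMod N) :
    ∑ k, ft g k * stdAddChar (-(k * y)) = N * g y := by
  unfold ft
  simp only [Finset.sum_mul]
  rw [Finset.sum_comm]
  have h1 : ∀ x : ZMod N, ∑ k : ZMod N, g x * stdAddChar (x * k) * stdAddChar (-(k * y)) =
      g x * if x - y = 0 then (N : ℂ) else 0 := by
    intro x
    rw [← sum_char, Finset.mul_sum]
    refine Finset.sum_congr rfl fun k _ => ?_
    rw [mul_assoc, ← AddChar.map_add_eq_mul]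
    congr 2
    ring
  simp only [h1]
  rw [Finset.sum_eq_single y]
  · rw [sub_self, if_pos rfl, mul_comm]
  · intro x _ hx
    rw [if_neg (sub_ne_zero.mpr hx), mul_zero]
  · intro h
    exact absurd (Finset.mem_univ _) h

theorem dual_dual (Φ : ZMod N → ℂ) : dual (dual Φ) = (N : ℂ) • Φ := by
  funext k
  rw [dual_eq, Pi.smul_apply, smul_eq_mul, ← ft_inv Φ k]
  rw [← Equiv.sum_comp (Equiv.neg (ZMod N))]
  refine Finset.sum_congr rfl fun j _ => ?_
  simp only [Equiv.neg_apply]
  unfold dual ft
  rw [Complex.conj_conj, neg_mul]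
  congr 1
  refine Finset.sum_congr rfl fun i _ => ?_
  rw [mul_neg, neg_neg]

theorem bd_smul {κ : ℝ} {Φ : ZMod N → ℂ} (c : ℂ) (h : Bd κ (line (LFunction Φ))) :
    Bd κ (line (LFunction (c • Φ))) :=
  (h.mul (g := fun _ => c) (K := ‖c‖) fun _ _ => le_rfl).congr fun _ _ => LFunction_smul _ _ _

theorem bd_dual {κ : ℝ} {Φ : ZMod N → ℂ} (h : Bd κ (line (LFunction Φ))) :
    Bd κ (line (LFunction (dual Φ))) := by
  refine bd_of_dual ?_
  rw [dual_dual]
  exact bd_smul _ h

/-- the space of functions whose L-function satisfies the bound -/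
noncomputable def VV (N : ℕ) [NeZero N] (κ : ℝ) : Submodule ℂ (ZMod N → ℂ) where
  carrier := {Φ | Bd κ (line (LFunction Φ))}
  add_mem' := fun {Φ Ψ} h1 h2 => (Bd.add h1 h2).congr fun _ _ => LFunction_add _ _ _
  zero_mem' := (Bd.zero κ).congr fun t _ => by
    show LFunction 0 _ = 0
    rw [LFunction_lin]
    simp
  smul_mem' := fun c _ h => bd_smul c h

theorem dual_single (a : ZMod N) : dual (Pi.single a 1) = fun k => (stdAddChar (a * k) : ℂ) := by
  funext k
  rw [dual_eq, Finset.sum_eq_single a]
  · simp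
  · intro b _ hb
    rw [Pi.single_eq_of_ne hb, map_zero, zero_mul]
  · intro h
    exact absurd (Finset.mem_univ _) h

theorem ft_nonunit {g : ZMod N → ℂ}
    (h : ∀ p ∈ N.primeFactors, ∀ b : ZMod N, ∑ x, rel p b x * g x = 0) {k : ZMod N}
    (hk : ¬ IsUnit k) : ft g k = 0 := by
  classical
  rw [← ZMod.natCast_zmod_val k, ZMod.isUnit_iff_coprime, Nat.Prime.not_coprime_iff_dvd] at hk
  obtain ⟨p, hp, ⟨k', hk'⟩, hpN⟩ := hk
  have hk2 : k = (p : ZMod N) * (k' : ZMod N) := by
    rw [← ZMod.natCast_zmod_val k, hk']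
    push_cast
    rfl
  have hpm : p ∈ N.primeFactors := Nat.mem_primeFactors.mpr ⟨hp, hpN, NeZero.ne N⟩
  unfold ft
  rw [← Finset.sum_fiberwise (s := Finset.univ) (g := fun x : ZMod N => (p : ZMod N) * x)]
  refine Finset.sum_eq_zero fun c _ => ?_
  have h1 : ∑ x ∈ Finset.univ.filter (fun x : ZMod N => (p : ZMod N) * x = c),
      g x * stdAddChar (x * k) =
      (∑ x ∈ Finset.univ.filter (fun x : ZMod N => (p : ZMod N) * x = c), g x) *
        stdAddChar (c * (k' : ZMod N)) := by
    rw [Finset.sum_mul]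
    refine Finset.sum_congr rfl fun x hx => ?_
    rw [Finset.mem_filter] at hx
    rw [← hx.2, hk2]
    congr 2
    ring
  rw [h1]
  by_cases hc : ∃ b : ZMod N, (p : ZMod N) * b = c
  · obtain ⟨b, rfl⟩ := hc
    have h2 := h p hpm b
    unfold rel at h2
    simp only [ite_mul, one_mul, zero_mul] at h2
    rw [Finset.sum_filter, h2, zero_mul]
  · have : Finset.univ.filter (fun x : ZMod N => (p : ZMod N) * x = c) = ∅ := by
      rw [Finset.filter_eq_empty_iff]
      intro x _ hx
      exact hc ⟨x, hx⟩
    rw [this, Finset.sum_empty, zero_mul]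

/-- criterion in terms of Fourier transforms -/
theorem crit2 {κ : ℝ} (S : Finset (ZMod N))
    (hS : ∀ a ∈ S, Bd κ (line (LFunction (Pi.single a 1))))
    (hg : ∀ g : ZMod N → ℂ, (∀ a ∈ S, g a = 0) → (∀ a ∈ S, ft g a = 0) →
      (∀ k, ¬ IsUnit k → ft g k = 0) → g = 0) (Φ : ZMod N → ℂ) :
    Bd κ (line (LFunction Φ)) := by
  refine criterion (VV N κ) (fun Φ h => h) (fun g h1 h2 => hg g (fun a ha => ?_) (fun a ha => ?_)
    fun k hk => ft_nonunit h2 hk) Φ
  · have := h1 _ (hS a ha)
    rw [Finset.sum_eq_single a] at this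
    · simpa using this
    · intro b _ hb
      rw [Pi.single_eq_of_ne hb, zero_mul]
    · intro h
      exact absurd (Finset.mem_univ _) h
  · have h3 := h1 _ (bd_dual (hS a ha))
    rw [dual_single] at h3
    rw [← h3]
    unfold ft
    refine Finset.sum_congr rfl fun x _ => ?_
    rw [mul_comm x a, mul_comm]

theorem ft_zero {g : ZMod N → ℂ} (h : ∀ k, ft g k = 0) : g = 0 := by
  funext y
  have h1 := ft_inv g y
  simp only [h, zero_mul, Finset.sum_const_zero] at h1
  have h2 : (N : ℂ) ≠ 0 := by exact_mod_cast NeZero.ne N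
  rcases mul_eq_zero.mp h1.symm with h3 | h3
  · exact absurd h3 h2
  · exact h3

/-- exponential sums with few frequencies vanishing on an arithmetic progression -/
theorem prog {g : ZMod N → ℂ} (K : Finset (ZMod N)) (hK : ∀ k, k ∉ K → ft g k = 0) {b d : ZMod N}
    (hd : IsUnit d) (hg : ∀ j : ℕ, j < K.card → g (b + j * d) = 0) : g = 0 := by
  classical
  set e : Fin K.card ≃ K := K.equivFin.symm with he
  have hinj : Function.Injective fun i : Fin K.card =>
      (stdAddChar (-((e i : ZMod N) * d)) : ℂ) := by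
    intro i j hij
    have h1 : -((e i : ZMod N) * d) = -((e j : ZMod N) * d) := injective_stdAddChar hij
    have h2 : (e i : ZMod N) = e j := hd.mul_right_cancel (neg_injective h1)
    exact e.injective (Subtype.ext h2)
  have hv := Matrix.eq_zero_of_forall_pow_sum_mul_pow_eq_zero (n := K.card)
    (v := fun i : Fin K.card => ft g (e i) * stdAddChar (-((e i : ZMod N) * b))) hinj
    (fun j => by
      have h1 := ft_inv g (b + (j : ℕ) * d)
      rw [hg j j.2, mul_zero] at h1
      rw [← h1]
      rw [← Finset.sum_subset (Finset.subset_univ K) (fun k _ hk => by rw [hK k hk, zero_mul])]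
      rw [← Finset.sum_coe_sort K, ← Equiv.sum_comp e]
      refine Finset.sum_congr rfl fun i _ => ?_
      rw [mul_assoc, ← AddChar.map_nsmul_eq_pow, ← AddChar.map_add_eq_mul]
      congr 2
      rw [nsmul_eq_mul]
      ring)
  apply ft_zero
  intro k
  by_cases hk : k ∈ K
  · have h1 := congrFun hv (e.symm ⟨k, hk⟩)
    simp only [Equiv.apply_symm_apply, Pi.zero_apply] at h1
    rcases mul_eq_zero.mp h1 with h2 | h2
    · exact h2
    · rw [stdAddChar_apply] at h2
      exact absurd h2 (Circle.coe_ne_zero _)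
  · exact hK k hk

/-- The count of units outside of `S`. -/
theorem card_units (S : Finset (ZMod N)) (h : N.totient ≤ S.card + (S.filter IsUnit).card) :
    (Finset.univ.filter fun k : ZMod N => IsUnit k ∧ k ∉ S).card ≤ S.card := by
  classical
  have h1 : (Finset.univ.filter fun k : ZMod N => IsUnit k).card = N.totient := by
    rw [← ZMod.card_units_eq_totient, ← Finset.card_univ,
      ← Finset.card_map ⟨Units.val, Units.val_injective⟩]
    congr 1
    ext k
    simp only [Finset.mem_filter, Finset.mem_univ, true_and, Finset.mem_map,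
      Function.Embedding.coeFn_mk]
    exact Iff.rfl
  have h2 : (Finset.univ.filter fun k : ZMod N => IsUnit k ∧ k ∉ S).card +
      (S.filter IsUnit).card = N.totient := by
    rw [← h1, ← Finset.card_union_of_disjoint]
    · congr 1
      ext k
      simp only [Finset.mem_union, Finset.mem_filter, Finset.mem_univ, true_and]
      tauto
    · rw [Finset.disjoint_left]
      intro k hk hk'
      simp only [Finset.mem_filter, Finset.mem_univ, true_and] at hk hk'
      exact hk.2 hk'.1
  omega

/-- the shape of the sets `S` -/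
def Good (S : Finset (ZMod N)) : Prop :=
  N.totient ≤ S.card + (S.filter IsUnit).card ∧
    (N.Prime ∨ ∃ b d : ZMod N, IsUnit d ∧ ∀ j : ℕ, j < S.card → b + j * d ∈ S)

theorem good_ann {S : Finset (ZMod N)} (hS : Good S) {g : ZMod N → ℂ} (h1 : ∀ a ∈ S, g a = 0)
    (h2 : ∀ a ∈ S, ft g a = 0) (h3 : ∀ k, ¬ IsUnit k → ft g k = 0) : g = 0 := by
  classical
  obtain ⟨hc, hP | ⟨b, d, hd, hb⟩⟩ := hS
  · have : Fact N.Prime := ⟨hP⟩
    by_contra hne
    have hf : ∃ x, g x ≠ 0 := by
      by_contra h
      push Not at h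
      exact hne (funext h)
    have h4 := Pool.Agent.H207.WH.tao (isPrimitive_stdAddChar N) g hf
    have h5 : (Finset.univ.filter fun x => g x ≠ 0).card ≤ N - S.card := by
      have : (Finset.univ.filter fun x => g x ≠ 0) ⊆ Finset.univ \ S := by
        intro x hx
        rw [Finset.mem_filter] at hx
        rw [Finset.mem_sdiff]
        exact ⟨Finset.mem_univ _, fun h => hx.2 (h1 x h)⟩
      refine (Finset.card_le_card this).trans ?_
      rw [Finset.card_sdiff_of_subset (Finset.subset_univ S), Finset.card_univ, ZMod.card]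
    have h6 : (Finset.univ.filter fun b => ∑ x, g x * stdAddChar (x * b) ≠ 0).card ≤ S.card := by
      refine le_trans (Finset.card_le_card ?_) (card_units S hc)
      intro k hk
      simp only [Finset.mem_filter, Finset.mem_univ, true_and] at hk ⊢
      exact ⟨by_contra fun h => hk (h3 k h), fun h => hk (h2 k h)⟩
    have h7 : S.card ≤ N := by
      have := Finset.card_le_univ S
      rwa [ZMod.card] at this
    omega
  · refine prog (Finset.univ.filter fun k : ZMod N => IsUnit k ∧ k ∉ S) (fun k hk => ?_)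
      (b := b) hd (fun j hj => ?_)
    · simp only [Finset.mem_filter, Finset.mem_univ, true_and, not_and, not_not] at hk
      by_cases hu : IsUnit k
      · exact h2 k (hk hu)
      · exact h3 k hu
    · exact h1 _ (hb j (hj.trans_le (card_units S hc)))

/-- the main theorem at level `N` -/
theorem main_level {κ : ℝ} {S : Finset (ZMod N)} (hS : Good S)
    (h : ∀ a ∈ S, Bd κ (line (HurwitzZeta.hurwitzZeta (toAddCircle a)))) (Φ : ZMod N → ℂ) :
    Bd κ (line (LFunction Φ)) := by
  refine crit2 S (fun a ha => ?_) (fun g h1 h2 h3 => good_ann hS h1 h2 h3) Φ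
  have hN : 0 < N := Nat.pos_of_ne_zero (NeZero.ne N)
  refine ((h a ha).mul (g := fun t : ℝ => (N : ℂ) ^ (-(1 / 2 + t * I : ℂ))) (K := 1)
    fun t _ => ?_).congr fun t _ => LFunction_single _ _
  rw [Complex.norm_natCast_cpow_of_pos hN]
  refine Real.rpow_le_one_of_one_le_of_nonpos (by exact_mod_cast hN) ?_
  simp

end Pool.Agent.H201.Hz
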