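import Mathlib

/-!
# Identities between L-functions of periodic functions

Complex conjugation, pull back to a multiple of the modulus, and the distribution relation.
-/

set_option autoImplicit false

namespace Pool.Agent.H201.Hz

open Complex ZMod Filter Topology Set

/-- Identity principle on the complement of `{1}`. -/
theorem ident {f g : ℂ → ℂ} (hf : ∀ s, s ≠ 1 → DifferentiableAt ℂ f s)
    (hg : ∀ s, s ≠ 1 → DifferentiableAt ℂ g s) (h : ∀ s : ℂ, 1 < s.re → f s = g s)
    {s : ℂ} (hs : s ≠ 1) : f s = g s := by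
  have hf' : AnalyticOnNhd ℂ f {z : ℂ | z ≠ 1} :=
    DifferentiableOn.analyticOnNhd (fun u hu ↦ (hf u hu).differentiableWithinAt)
      isOpen_compl_singleton
  have hg' : AnalyticOnNhd ℂ g {z : ℂ | z ≠ 1} :=
    DifferentiableOn.analyticOnNhd (fun u hu ↦ (hg u hu).differentiableWithinAt)
      isOpen_compl_singleton
  have hUc : IsPreconnected {z : ℂ | z ≠ 1} :=
    (isConnected_compl_singleton_of_one_lt_rank (by simp) _).isPreconnected
  have hV : {z : ℂ | 1 < z.re} ∈ 𝓝 (2 : ℂ) :=
    (continuous_re.isOpen_preimage _ isOpen_Ioi).mem_nhds (by simp)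
  refine hf'.eqOn_of_preconnected_of_eventuallyEq hg' hUc (z₀ := 2) ?_ ?_ hs
  · show (2 : ℂ) ≠ 1
    norm_num
  · filter_upwards [hV] with z hz using h z hz

variable {N : ℕ} [NeZero N]

theorem diffL (Φ : ZMod N → ℂ) {s : ℂ} (hs : s ≠ 1) : DifferentiableAt ℂ (LFunction Φ) s :=
  differentiableAt_LFunction Φ s (Or.inl hs)

/-- L-function of the conjugate function. -/
theorem LFunction_conj (Φ : ZMod N → ℂ) {s : ℂ} (hs : s ≠ 1) :
    LFunction (fun x => (starRingEnd ℂ) (Φ x)) s =
      (starRingEnd ℂ) (LFunction Φ ((starRingEnd ℂ) s)) := by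
  have h1 : ∀ z : ℂ, z ≠ 1 → (starRingEnd ℂ) z ≠ 1 := by
    intro z hz h
    apply hz
    rw [← Complex.conj_conj z, h, map_one]
  refine ident (f := LFunction (fun x => (starRingEnd ℂ) (Φ x)))
    (g := fun z => (starRingEnd ℂ) (LFunction Φ ((starRingEnd ℂ) z)))
    (fun z hz => diffL _ hz) (fun z hz => ?_) (fun z hz => ?_) hs
  · have := (diffL Φ (h1 z hz)).conj_conj
    rw [Complex.conj_conj] at this
    exact this
  · have hz' : 1 < ((starRingEnd ℂ) z).re := by simpa using hz
    rw [LFunction_eq_LSeries _ hz, LFunction_eq_LSeries _ hz', LSeries, LSeries, Complex.conj_tsum]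
    refine tsum_congr fun n => ?_
    rcases Nat.eq_zero_or_pos n with rfl | hn
    · simp
    · rw [LSeries.term_of_ne_zero hn.ne', LSeries.term_of_ne_zero hn.ne', map_div₀]
      congr 1
      rw [Complex.cpow_conj _ _ (by rw [Complex.natCast_arg]; exact Real.pi_pos.ne), Complex.conj_conj,
        Complex.conj_natCast]

/-- L-functions do not change under pull back to a multiple of the modulus. -/
theorem LFunction_pull {M : ℕ} [NeZero M] (h : N ∣ M) (Φ : ZMod N → ℂ) {s : ℂ} (hs : s ≠ 1) :
    LFunction (fun x : ZMod M => Φ (ZMod.castHom h (ZMod N) x)) s = LFunction Φ s := by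
  refine ident (fun z hz => diffL _ hz) (fun z hz => diffL _ hz) (fun z hz => ?_) hs
  rw [LFunction_eq_LSeries _ hz, LFunction_eq_LSeries _ hz]
  congr 1
  funext n
  simp

/-- The distribution relation: multiples of `p`. -/
theorem LFunction_mul {p : ℕ} (hp0 : 0 < p) (Φ : ZMod N → ℂ)
    (hΦ : ∀ n : ℕ, ¬ p ∣ n → Φ n = 0) {s : ℂ} (hs : s ≠ 1) :
    LFunction Φ s = (p : ℂ) ^ (-s) * LFunction (fun x => Φ ((p : ZMod N) * x)) s := by
  refine ident (g := fun s => (p : ℂ) ^ (-s) * LFunction (fun x => Φ ((p : ZMod N) * x)) s)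
    (fun z hz => diffL _ hz) (fun z hz => ?_) (fun z hz => ?_) hs
  · refine DifferentiableAt.mul ?_ (diffL _ hz)
    have : (p : ℂ) ≠ 0 := by exact_mod_cast hp0.ne'
    refine DifferentiableAt.const_cpow (by fun_prop) (Or.inl this)
  · show LFunction Φ z = (p : ℂ) ^ (-z) * LFunction (fun x => Φ ((p : ZMod N) * x)) z
    rw [LFunction_eq_LSeries _ hz, LFunction_eq_LSeries _ hz, LSeries, LSeries, ← tsum_mul_left]
    have hinj : Function.Injective (fun n : ℕ => p * n) := fun a b hab =>
      Nat.eq_of_mul_eq_mul_left hp0 hab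
    rw [← hinj.tsum_eq]
    · refine tsum_congr fun n => ?_
      rcases Nat.eq_zero_or_pos n with rfl | hn
      · simp
      · rw [LSeries.term_of_ne_zero hn.ne', LSeries.term_of_ne_zero (by positivity)]
        rw [Nat.cast_mul, Nat.cast_mul, Complex.natCast_mul_natCast_cpow, Complex.cpow_neg]
        have hpz : (p : ℂ) ^ z ≠ 0 := by
          rw [Complex.cpow_ne_zero_iff]
          left
          exact_mod_cast hp0.ne'
        field_simp
    · intro n hn
      rw [Function.mem_support] at hn
      by_cases h : p ∣ n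
      · obtain ⟨m, rfl⟩ := h
        exact ⟨m, rfl⟩
      · exfalso
        apply hn
        rcases Nat.eq_zero_or_pos n with rfl | hn0
        · simp
        · rw [LSeries.term_of_ne_zero hn0.ne', hΦ n h, zero_div]

end Pool.Agent.H201.Hz
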