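import Pool.Agent.H201.Hz.Basic
import Pool.Graph.R_seed8.H405R2.SM_T6A

/-!
# Bounds on the critical line and the functional equation
-/

set_option autoImplicit false

namespace Pool.Agent.H201.Hz

open Complex ZMod Filter Topology Set

/-- `f(t) = O(t^(κ+ε))` for `t ≥ 1`, for every `ε > 0`. -/
def Bd (κ : ℝ) (f : ℝ → ℂ) : Prop :=
  ∀ ε : ℝ, 0 < ε → ∃ C : ℝ, ∀ t : ℝ, 1 ≤ t → ‖f t‖ ≤ C * t ^ (κ + ε)

/-- restriction to the critical line -/
noncomputable def line (f : ℂ → ℂ) (t : ℝ) : ℂ := f (1 / 2 + t * I)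

theorem Bd.add {κ : ℝ} {f g : ℝ → ℂ} (hf : Bd κ f) (hg : Bd κ g) : Bd κ (fun t => f t + g t) := by
  intro ε hε
  obtain ⟨C, hC⟩ := hf ε hε
  obtain ⟨D, hD⟩ := hg ε hε
  refine ⟨C + D, fun t ht => ?_⟩
  have := norm_add_le (f t) (g t)
  have h1 := hC t ht
  have h2 := hD t ht
  rw [add_mul]
  linarith

/-- multiplication by a bounded function -/
theorem Bd.mul {κ : ℝ} {f g : ℝ → ℂ} (hf : Bd κ f) {K : ℝ} (hg : ∀ t, 1 ≤ t → ‖g t‖ ≤ K) :
    Bd κ (fun t => g t * f t) := by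
  intro ε hε
  obtain ⟨C, hC⟩ := hf ε hε
  refine ⟨K * C, fun t ht => ?_⟩
  have hK : 0 ≤ K := (norm_nonneg _).trans (hg t ht)
  rw [norm_mul, mul_assoc]
  exact mul_le_mul (hg t ht) (hC t ht) (norm_nonneg _) hK

theorem Bd.zero (κ : ℝ) : Bd κ (fun _ => 0) := by
  intro ε hε
  refine ⟨0, fun t ht => ?_⟩
  simp

theorem Bd.sum {κ : ℝ} {ι : Type*} (s : Finset ι) {f : ι → ℝ → ℂ} (h : ∀ i ∈ s, Bd κ (f i)) :
    Bd κ (fun t => ∑ i ∈ s, f i t) := by
  classical
  induction s using Finset.induction_on with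
  | empty => simpa using Bd.zero κ
  | insert a s ha ih =>
    simp only [Finset.sum_insert ha]
    exact (h a (Finset.mem_insert_self _ _)).add
      (ih fun i hi => h i (Finset.mem_insert_of_mem hi))

theorem Bd.congr {κ : ℝ} {f g : ℝ → ℂ} (hf : Bd κ f) (h : ∀ t, 1 ≤ t → g t = f t) : Bd κ g := by
  intro ε hε
  obtain ⟨C, hC⟩ := hf ε hε
  refine ⟨C, fun t ht => ?_⟩
  rw [h t ht]
  exact hC t ht

theorem Bd.norm_le {κ : ℝ} {f g : ℝ → ℂ} (hf : Bd κ f) (h : ∀ t, 1 ≤ t → ‖g t‖ ≤ ‖f t‖) :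
    Bd κ g := by
  intro ε hε
  obtain ⟨C, hC⟩ := hf ε hε
  exact ⟨C, fun t ht => (h t ht).trans (hC t ht)⟩

/-- exponentially small times polynomial -/
theorem exp_small (κ : ℝ) (A : ℕ) : ∃ C : ℝ, ∀ t : ℝ, 1 ≤ t → Real.exp (-(Real.pi * t)) * t ^ A ≤ C * t ^ κ := by
  have h := isLittleO_rpow_exp_pos_mul_atTop (A - κ) Real.pi_pos
  have h1 := h.isBigO
  obtain ⟨C, hC⟩ := h1.bound
  rw [eventually_atTop] at hC
  obtain ⟨T, hT⟩ := hC
  -- continuous on [1, T]
  have hcont : ContinuousOn (fun t : ℝ => Real.exp (-(Real.pi * t)) * t ^ A / t ^ κ) (Set.Icc 1 T) := by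
    refine ContinuousOn.div (by fun_prop) ?_ ?_
    · refine ContinuousOn.rpow_const continuousOn_id (fun x hx => Or.inl ?_)
      have : (1 : ℝ) ≤ x := hx.1
      exact (by linarith : (0 : ℝ) < x).ne'
    · intro x hx
      have : (1 : ℝ) ≤ x := hx.1
      positivity
  obtain ⟨D, hD⟩ := isCompact_Icc.exists_bound_of_continuousOn hcont
  refine ⟨max C D, fun t ht => ?_⟩
  have ht0 : 0 < t := by linarith
  have htk : 0 < t ^ κ := Real.rpow_pos_of_pos ht0 _
  rcases le_total t T with h2 | h2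
  · have h3 := hD t ⟨ht, h2⟩
    rw [Real.norm_eq_abs] at h3
    have h4 := (le_abs_self _).trans h3
    rw [div_le_iff₀ htk] at h4
    exact h4.trans (mul_le_mul_of_nonneg_right (le_max_right _ _) htk.le)
  · have h3 := hT t h2
    rw [Real.norm_eq_abs, Real.norm_eq_abs, abs_of_pos (Real.rpow_pos_of_pos ht0 _),
      abs_of_pos (Real.exp_pos _)] at h3
    have h4 : t ^ A = t ^ ((A : ℝ) - κ) * t ^ κ := by
      rw [← Real.rpow_add ht0, sub_add_cancel, Real.rpow_natCast]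
    rw [h4]
    calc Real.exp (-(Real.pi * t)) * (t ^ ((A : ℝ) - κ) * t ^ κ)
        ≤ Real.exp (-(Real.pi * t)) * ((C * Real.exp (Real.pi * t)) * t ^ κ) := by gcongr
      _ = C * t ^ κ := by
        rw [Real.exp_neg]
        field_simp
      _ ≤ max C D * t ^ κ := mul_le_mul_of_nonneg_right (le_max_left _ _) htk.le

/-- modulus of the Gamma function on the critical line -/
theorem norm_Gamma_half (t : ℝ) :
    ‖Complex.Gamma (1 / 2 + t * I)‖ ≤ Real.sqrt (2 * Real.pi) * Real.exp (-(Real.pi * |t| / 2)) := by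
  have h1 := Complex.Gamma_mul_Gamma_one_sub (1 / 2 + t * I)
  have h2 : (1 : ℂ) - (1 / 2 + t * I) = (starRingEnd ℂ) (1 / 2 + t * I) := by
    simp only [map_add, map_mul, Complex.conj_I, Complex.conj_ofReal, map_div₀, map_one]
    rw [show (starRingEnd ℂ) 2 = 2 from Complex.conj_ofNat 2]
    ring
  rw [h2, Complex.Gamma_conj, Complex.mul_conj] at h1
  have h3 : Complex.sin (Real.pi * (1 / 2 + t * I)) = Real.cosh (Real.pi * t) := by
    rw [show (Real.pi : ℂ) * (1 / 2 + t * I) = (Real.pi * t : ℂ) * I + Real.pi / 2 by ring,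
      Complex.sin_add_pi_div_two, Complex.cos_mul_I]
    push_cast
    rfl
  rw [h3, Complex.normSq_eq_norm_sq] at h1
  have h4 : ‖Complex.Gamma (1 / 2 + t * I)‖ ^ 2 = Real.pi / Real.cosh (Real.pi * t) := by
    exact_mod_cast h1
  have h5 : Real.exp (Real.pi * |t|) / 2 ≤ Real.cosh (Real.pi * t) := by
    rw [← Real.cosh_abs (Real.pi * t), abs_mul, abs_of_pos Real.pi_pos, Real.cosh_eq]
    have := Real.exp_pos (-(Real.pi * |t|))
    linarith
  have h6 : ‖Complex.Gamma (1 / 2 + t * I)‖ ^ 2 ≤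
      (Real.sqrt (2 * Real.pi) * Real.exp (-(Real.pi * |t| / 2))) ^ 2 := by
    rw [h4, mul_pow, Real.sq_sqrt (by positivity), ← Real.exp_nat_mul]
    rw [div_le_iff₀ (Real.cosh_pos _)]
    have h7 : Real.exp ((2 : ℕ) * (-(Real.pi * |t| / 2))) = (Real.exp (Real.pi * |t|))⁻¹ := by
      rw [← Real.exp_neg]
      congr 1
      push_cast
      ring
    rw [h7]
    calc Real.pi = 2 * Real.pi * (Real.exp (Real.pi * |t|))⁻¹ * (Real.exp (Real.pi * |t|) / 2) := by
          field_simp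
      _ ≤ _ := by gcongr
  exact (pow_le_pow_iff_left₀ (norm_nonneg _) (by positivity) two_ne_zero).mp h6

/-- polynomial growth of L-functions of periodic functions -/
theorem growth {N : ℕ} [NeZero N] (Φ : ZMod N → ℂ) : ∃ C : ℝ, ∃ A : ℕ, ∀ s : ℂ,
    -(1 / 2) ≤ s.re → s.re ≤ 3 → 1 ≤ |s.im| → ‖LFunction Φ s‖ ≤ C * |s.im| ^ A := by
  obtain ⟨C, A, h⟩ := Pool.Agent.H405R2.SM.hurwitz_growth N
  have hN : (1 : ℝ) ≤ N := by exact_mod_cast Nat.one_le_iff_ne_zero.mpr (NeZero.ne N)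
  refine ⟨(N : ℝ) * ∑ j, ‖Φ j‖ * C, A, fun s h1 h2 h3 => ?_⟩
  unfold LFunction
  rw [norm_mul, mul_assoc]
  have h4 : ‖(N : ℂ) ^ (-s)‖ ≤ N := by
    rw [Complex.norm_natCast_cpow_of_pos (by exact_mod_cast Nat.pos_of_ne_zero (NeZero.ne N))]
    calc (N : ℝ) ^ (-s).re ≤ (N : ℝ) ^ (1 : ℝ) := by
          refine Real.rpow_le_rpow_of_exponent_le hN ?_
          rw [Complex.neg_re]
          linarith
      _ = N := Real.rpow_one _
  refine mul_le_mul h4 ?_ (norm_nonneg _) (by positivity)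
  rw [Finset.sum_mul]
  refine (norm_sum_le _ _).trans (Finset.sum_le_sum fun j _ => ?_)
  rw [norm_mul, mul_assoc]
  exact mul_le_mul_of_nonneg_left (h j s h1 h2 h3) (norm_nonneg _)

/-- the antilinear duality -/
noncomputable def dual {N : ℕ} [NeZero N] (Φ : ZMod N → ℂ) : ZMod N → ℂ :=
  fun k => (starRingEnd ℂ) (∑ j, Φ j * stdAddChar (-(j * k)))

theorem dual_eq {N : ℕ} [NeZero N] (Φ : ZMod N → ℂ) (k : ZMod N) :
    dual Φ k = ∑ j, (starRingEnd ℂ) (Φ j) * stdAddChar (j * k) := by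
  unfold dual
  rw [map_sum]
  refine Finset.sum_congr rfl fun j _ => ?_
  rw [map_mul, AddChar.map_neg_eq_conj, Complex.conj_conj]

/-- functional equation: if the dual function is bounded, so is the function -/
theorem bd_of_dual {N : ℕ} [NeZero N] {κ : ℝ} {Φ : ZMod N → ℂ}
    (h : Bd κ (line (LFunction (dual Φ)))) : Bd κ (line (LFunction Φ)) := by
  obtain ⟨C, A, hC⟩ := growth (ZMod.dft (fun x => (starRingEnd ℂ) (Φ x)))
  intro ε hε
  obtain ⟨D, hD⟩ := h ε hε
  obtain ⟨E, hE⟩ := exp_small (κ + ε) A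
  refine ⟨|C| * E + D, fun t ht => ?_⟩
  set s : ℂ := 1 / 2 + t * I with hs
  have hre : s.re = 1 / 2 := by simp [hs]
  have him : s.im = t := by simp [hs]
  have hne : s ≠ 1 := by
    intro h
    rw [h] at hre
    norm_num at hre
  have hconj : (starRingEnd ℂ) s = 1 - s := by
    apply Complex.ext
    · simp [hre]; norm_num
    · simp
  have h1 : ‖line (LFunction Φ) t‖ = ‖LFunction (fun x => (starRingEnd ℂ) (Φ x)) (1 - s)‖ := by
    have hne' : 1 - s ≠ 1 := by
      intro h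
      have : (1 - s).re = 1 := by rw [h]; simp
      simp only [Complex.sub_re, Complex.one_re, hre] at this
      norm_num at this
    rw [← hconj] at hne' ⊢
    rw [LFunction_conj Φ hne', Complex.conj_conj, RCLike.norm_conj]
    rfl
  rw [h1, LFunction_one_sub _ (fun n hn => by rw [hn] at hre; simp at hre; linarith [(n.cast_nonneg : (0:ℝ) ≤ n)])
    (Or.inr hne)]
  have h2 : (𝓕 fun x : ZMod N => (fun x => (starRingEnd ℂ) (Φ x)) (-x)) = dual Φ := by
    funext k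
    rw [dual_eq, ZMod.dft_apply]
    rw [← Equiv.sum_comp (Equiv.neg (ZMod N))]
    refine Finset.sum_congr rfl fun j _ => ?_
    simp [mul_comm]
  rw [h2]
  have n1 : ‖(N : ℂ) ^ (s - 1)‖ ≤ 1 := by
    rw [Complex.norm_natCast_cpow_of_pos (by exact_mod_cast Nat.pos_of_ne_zero (NeZero.ne N))]
    refine Real.rpow_le_one_of_one_le_of_nonpos
      (by exact_mod_cast Nat.one_le_iff_ne_zero.mpr (NeZero.ne N)) ?_
    simp only [Complex.sub_re, hre, Complex.one_re]
    norm_num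
  have n2 : ‖(2 * Real.pi : ℂ) ^ (-s)‖ * Real.sqrt (2 * Real.pi) = 1 := by
    rw [show (2 * Real.pi : ℂ) = ((2 * Real.pi : ℝ) : ℂ) by push_cast; ring,
      Complex.norm_cpow_eq_rpow_re_of_pos (by positivity), Complex.neg_re, hre,
      Real.sqrt_eq_rpow, ← Real.rpow_add (by positivity)]
    norm_num
  have n3 : ‖Complex.Gamma s‖ ≤ Real.sqrt (2 * Real.pi) * Real.exp (-(Real.pi * t / 2)) := by
    have := norm_Gamma_half t
    rwa [abs_of_nonneg (by linarith)] at this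
  have n4 : ‖cexp (Real.pi * I * s / 2)‖ = Real.exp (-(Real.pi * t / 2)) := by
    rw [Complex.norm_exp]
    congr 1
    rw [show (Real.pi : ℂ) * I * s / 2 = ((Real.pi / 2 : ℝ) : ℂ) * (I * s) by push_cast; ring,
      Complex.re_ofReal_mul, Complex.I_mul_re, him]
    ring
  have n5 : ‖cexp (-Real.pi * I * s / 2)‖ = Real.exp (Real.pi * t / 2) := by
    rw [Complex.norm_exp]
    congr 1
    rw [show -(Real.pi : ℂ) * I * s / 2 = ((-(Real.pi / 2) : ℝ) : ℂ) * (I * s) by push_cast; ring,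
      Complex.re_ofReal_mul, Complex.I_mul_re, him]
    ring
  have n6 : ‖LFunction (𝓕 fun x => (starRingEnd ℂ) (Φ x)) s‖ ≤ |C| * t ^ A := by
    refine (hC s (by rw [hre]; norm_num) (by rw [hre]; norm_num)
      (by rw [him, abs_of_nonneg (by linarith)]; exact ht)).trans ?_
    rw [him, abs_of_nonneg (by linarith : (0 : ℝ) ≤ t)]
    exact mul_le_mul_of_nonneg_right (le_abs_self C) (by positivity)
  have n7 := hD t ht
  have n7' : ‖LFunction (dual Φ) s‖ ≤ D * t ^ (κ + ε) := n7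
  have n8 := hE t ht
  rw [norm_mul, norm_mul, norm_mul]
  calc ‖(N : ℂ) ^ (s - 1)‖ * ‖(2 * Real.pi : ℂ) ^ (-s)‖ * ‖Complex.Gamma s‖ *
        ‖cexp (Real.pi * I * s / 2) * LFunction (𝓕 fun x => (starRingEnd ℂ) (Φ x)) s +
          cexp (-Real.pi * I * s / 2) * LFunction (dual Φ) s‖
      ≤ 1 * ‖(2 * Real.pi : ℂ) ^ (-s)‖ * (Real.sqrt (2 * Real.pi) * Real.exp (-(Real.pi * t / 2))) *
        (Real.exp (-(Real.pi * t / 2)) * (|C| * t ^ A) +
          Real.exp (Real.pi * t / 2) * (D * t ^ (κ + ε))) := by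
        gcongr
        refine (norm_add_le _ _).trans ?_
        rw [norm_mul, norm_mul, n4, n5]
        gcongr
    _ = (‖(2 * Real.pi : ℂ) ^ (-s)‖ * Real.sqrt (2 * Real.pi)) *
        ((Real.exp (-(Real.pi * t / 2)) * Real.exp (-(Real.pi * t / 2))) * (|C| * t ^ A) +
          (Real.exp (-(Real.pi * t / 2)) * Real.exp (Real.pi * t / 2)) * (D * t ^ (κ + ε))) := by
        ring
    _ = |C| * (Real.exp (-(Real.pi * t)) * t ^ A) + D * t ^ (κ + ε) := by
        rw [n2, ← Real.exp_add, ← Real.exp_add]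
        rw [show -(Real.pi * t / 2) + -(Real.pi * t / 2) = -(Real.pi * t) by ring,
          show -(Real.pi * t / 2) + Real.pi * t / 2 = 0 by ring, Real.exp_zero]
        ring
    _ ≤ |C| * (E * t ^ (κ + ε)) + D * t ^ (κ + ε) := by gcongr
    _ = (|C| * E + D) * t ^ (κ + ε) := by ring

end Pool.Agent.H201.Hz
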