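import Pool.Agent.H201.Hz.Strip
import Pool.Agent.H201.Hz.Bd

/-!
# Division by almost periodic factors
-/

set_option autoImplicit false

namespace Pool.Agent.H201.Hz

open Complex Filter Topology Set

/-- Uniform small circles on which a compact family of entire functions has no zeros. -/
theorem circles {Θ : Type*} [TopologicalSpace Θ] [CompactSpace Θ] {F : Θ → ℂ → ℂ}
    (hc : Continuous (Function.uncurry F)) (hd : ∀ θ, Differentiable ℂ (F θ))
    (h0 : ∀ θ, ∃ z, F θ z ≠ 0) (z0 : ℂ) {a : ℝ} (ha : 0 < a) :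
    ∃ c : ℝ, 0 < c ∧ ∀ θ, ∃ r : ℝ, 0 < r ∧ r ≤ a ∧ ∀ z, ‖z - z0‖ = r → c ≤ ‖F θ z‖ := by
  have key : ∃ c : ℝ, 0 < c ∧ ∀ θ ∈ (univ : Set Θ), ∃ r : ℝ, 0 < r ∧ r ≤ a ∧
      ∀ z, ‖z - z0‖ = r → c ≤ ‖F θ z‖ := by
    refine isCompact_univ.induction_on
      (p := fun S : Set Θ => ∃ c : ℝ, 0 < c ∧ ∀ θ ∈ S, ∃ r : ℝ, 0 < r ∧ r ≤ a ∧
        ∀ z, ‖z - z0‖ = r → c ≤ ‖F θ z‖) ⟨1, one_pos, by simp⟩ ?_ ?_ ?_
    · rintro s t hst ⟨c, hc0, h⟩
      exact ⟨c, hc0, fun θ hθ => h θ (hst hθ)⟩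
    · rintro s t ⟨c, hc0, h⟩ ⟨c', hc0', h'⟩
      refine ⟨min c c', lt_min hc0 hc0', fun θ hθ => ?_⟩
      rcases hθ with hθ | hθ
      · obtain ⟨r, r1, r2, r3⟩ := h θ hθ
        exact ⟨r, r1, r2, fun z hz => (min_le_left _ _).trans (r3 z hz)⟩
      · obtain ⟨r, r1, r2, r3⟩ := h' θ hθ
        exact ⟨r, r1, r2, fun z hz => (min_le_right _ _).trans (r3 z hz)⟩
    · intro θ _
      -- isolated zeros at `z0`
      have han : AnalyticAt ℂ (F θ) z0 := (hd θ).analyticAt z0
      have hne : ∀ᶠ z in 𝓝[≠] z0, F θ z ≠ 0 := by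
        rcases han.eventually_eq_zero_or_eventually_ne_zero with h | h
        · exfalso
          obtain ⟨z, hz⟩ := h0 θ
          apply hz
          have hA : AnalyticOnNhd ℂ (F θ) univ := fun x _ => (hd θ).analyticAt x
          exact hA.eqOn_zero_of_preconnected_of_eventuallyEq_zero isPreconnected_univ
            (mem_univ z0) h (mem_univ z)
        · exact h
      rw [eventually_nhdsWithin_iff, Metric.eventually_nhds_iff] at hne
      obtain ⟨ρ, hρ, hne⟩ := hne
      set r : ℝ := min (ρ / 2) a with hr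
      have hr0 : 0 < r := lt_min (by positivity) ha
      have hrρ : r < ρ := (min_le_left _ _).trans_lt (by linarith)
      have hsph : ∀ z ∈ Metric.sphere z0 r, F θ z ≠ 0 := by
        intro z hz
        rw [mem_sphere_iff_norm] at hz
        refine hne (by rw [dist_eq_norm, hz]; exact hrρ) ?_
        rintro rfl
        simp at hz
        exact hr0.ne hz
      have hcomp : IsCompact (Metric.sphere z0 r) := isCompact_sphere z0 r
      have hcont : Continuous fun z => ‖F θ z‖ := (hd θ).continuous.norm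
      obtain ⟨c, hc0, hcs⟩ : ∃ c : ℝ, 0 < c ∧ ∀ z ∈ Metric.sphere z0 r, c < ‖F θ z‖ := by
        rcases (Metric.sphere z0 r).eq_empty_or_nonempty with he | hn
        · exact ⟨1, one_pos, by rw [he]; simp⟩
        · obtain ⟨z1, hz1, hmin⟩ := hcomp.exists_isMinOn hn hcont.continuousOn
          have hp : 0 < ‖F θ z1‖ := norm_pos_iff.mpr (hsph z1 hz1)
          refine ⟨‖F θ z1‖ / 2, by positivity, fun z hz => ?_⟩
          have : ‖F θ z1‖ ≤ ‖F θ z‖ := hmin hz
          linarith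
      have hev : ∀ᶠ θ' in 𝓝 θ, ∀ z ∈ Metric.sphere z0 r, c < ‖F θ' z‖ := by
        refine hcomp.eventually_forall_of_forall_eventually (P := fun θ' z => c < ‖F θ' z‖) ?_
        intro z hz
        have h1 : ContinuousAt (fun q : Θ × ℂ => ‖F q.1 q.2‖) (θ, z) := hc.norm.continuousAt
        exact h1.eventually (lt_mem_nhds (hcs z hz))
      refine ⟨_, mem_nhdsWithin_of_mem_nhds hev, c, hc0, fun θ' hθ' => ⟨r, hr0, min_le_right _ _, ?_⟩⟩
      intro z hz
      exact (hθ' z (mem_sphere_iff_norm.mpr hz)).le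
  obtain ⟨c, hc0, h⟩ := key
  exact ⟨c, hc0, fun θ => h θ (mem_univ θ)⟩

theorem rpow_shift (k : ℝ) {t : ℝ} (ht : 1 ≤ t) :
    t ^ k ≤ 2 ^ |k| * (1 + t) ^ k ∧ (1 + t) ^ k ≤ 2 ^ |k| * t ^ k := by
  have h2 : (1 : ℝ) ≤ 2 ^ |k| := Real.one_le_rpow (by norm_num) (abs_nonneg k)
  have ht0 : 0 < t := by linarith
  have p1 : 0 < t ^ k := Real.rpow_pos_of_pos ht0 _
  have p2 : 0 < (1 + t) ^ k := Real.rpow_pos_of_pos (by linarith) _
  rcases le_total 0 k with hk | hk
  · constructor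
    · calc t ^ k ≤ (1 + t) ^ k := Real.rpow_le_rpow ht0.le (by linarith) hk
        _ ≤ _ := by nlinarith
    · rw [abs_of_nonneg hk, ← Real.mul_rpow (by norm_num) ht0.le]
      exact Real.rpow_le_rpow (by linarith) (by linarith) hk
  · constructor
    · rw [abs_of_nonpos hk, Real.rpow_neg (by norm_num)]
      have h3 : (2 * t) ^ k ≤ (1 + t) ^ k :=
        Real.rpow_le_rpow_of_nonpos (by linarith) (by linarith) hk
      rw [Real.mul_rpow (by norm_num) ht0.le] at h3
      have h4 : 0 < (2 : ℝ) ^ k := Real.rpow_pos_of_pos (by norm_num) _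
      rw [← div_eq_inv_mul, le_div_iff₀ h4]
      linarith
    · calc (1 + t) ^ k ≤ t ^ k := Real.rpow_le_rpow_of_nonpos ht0 (by linarith) hk
        _ ≤ _ := by nlinarith

/-- Division of a bound on the critical line by an almost periodic factor. -/
theorem divide {Θ : Type*} [TopologicalSpace Θ] [CompactSpace Θ] {F : Θ → ℂ → ℂ}
    (hc : Continuous (Function.uncurry F)) (hd : ∀ θ, Differentiable ℂ (F θ))
    (h0 : ∀ θ, ∃ z, F θ z ≠ 0) {D : ℂ → ℂ} (τ : ℝ → Θ)
    (hτ : ∀ (T : ℝ) (z : ℂ), F (τ T) z = D (z + T * I)) {f : ℂ → ℂ}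
    (hf : ∀ s : ℂ, s ≠ 1 → DifferentiableAt ℂ f s)
    (hg : ∃ C A : ℝ, ∀ s : ℂ, 1 / 4 ≤ s.re → s.re ≤ 3 / 4 → ‖f s‖ ≤ C * (1 + |s.im|) ^ A)
    {κ : ℝ} (hb : Bd κ (line (fun s => D s * f s))) : Bd κ (line f) := by
  obtain ⟨C, A, hg⟩ := hg
  -- `D` is entire and bounded in the strip
  have hDdiff : Differentiable ℂ D := by
    have : D = F (τ 0) := by
      funext z
      rw [hτ]
      simp
    rw [this]
    exact hd _
  obtain ⟨B, hB⟩ : ∃ B : ℝ, ∀ s : ℂ, 1 / 4 ≤ s.re → s.re ≤ 3 / 4 → ‖D s‖ ≤ B := by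
    have hcomp : IsCompact ((univ : Set Θ) ×ˢ (Icc (1 / 4 : ℝ) (3 / 4))) :=
      isCompact_univ.prod isCompact_Icc
    have hcont : Continuous fun q : Θ × ℝ => F q.1 (q.2 : ℂ) :=
      hc.comp (by fun_prop : Continuous fun q : Θ × ℝ => (q.1, (q.2 : ℂ)))
    obtain ⟨B, hB⟩ := hcomp.exists_bound_of_continuousOn hcont.continuousOn
    refine ⟨B, fun s h1 h2 => ?_⟩
    have := hB (τ s.im, s.re) ⟨mem_univ _, h1, h2⟩
    rw [hτ, Complex.re_add_im] at this
    exact this
  have hB0 : 0 ≤ B := (norm_nonneg _).trans (hB (1 / 2) (by norm_num) (by norm_num))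
  intro ε hε
  obtain ⟨C1, hC1⟩ := hb (ε / 2) (by positivity)
  set k : ℝ := κ + ε / 2 with hk
  set A' : ℝ := max A |k| with hA'
  set C' : ℝ := max 1 (max (B * |C|) (|C1| * 2 ^ |k|)) with hC'
  have hC'1 : 1 ≤ C' := le_max_left _ _
  have hkA : |k| ≤ A' := le_max_right _ _
  have hkA0 : 0 ≤ A' - k := by have := le_abs_self k; linarith
  obtain ⟨K, hK0, hK⟩ := strip_bound (G := fun s => D s * f s) (C := C') (A := A') (k := k)
    hC'1 hkA
    (fun s h1 h2 => (hDdiff s).mul (hf s (by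
      intro h
      rw [h] at h2
      norm_num at h2)))
    (fun s h1 h2 => by
      have h3 : 1 ≤ 1 + |s.im| := by linarith [abs_nonneg s.im]
      rw [norm_mul]
      calc ‖D s‖ * ‖f s‖ ≤ B * (|C| * (1 + |s.im|) ^ A) := by
            refine mul_le_mul (hB s h1 h2) ((hg s h1 h2).trans ?_) (norm_nonneg _) hB0
            exact mul_le_mul_of_nonneg_right (le_abs_self C) (by positivity)
        _ = (B * |C|) * (1 + |s.im|) ^ A := by ring
        _ ≤ C' * (1 + |s.im|) ^ A' := by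
            refine mul_le_mul ((le_max_left _ _).trans (le_max_right _ _)) ?_ (by positivity)
              (by linarith)
            exact Real.rpow_le_rpow_of_exponent_le h3 (le_max_left _ _))
    (fun t ht => by
      have h1 : ‖D (1 / 2 + t * I) * f (1 / 2 + t * I)‖ ≤ C1 * t ^ k := hC1 t ht
      have ht0 : 0 < t := by linarith
      rw [abs_of_pos ht0]
      refine h1.trans ?_
      have h2 := (rpow_shift k ht).1
      calc C1 * t ^ k ≤ |C1| * t ^ k := by gcongr; exact le_abs_self C1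
        _ ≤ |C1| * (2 ^ |k| * (1 + t) ^ k) := by gcongr
        _ = (|C1| * 2 ^ |k|) * (1 + t) ^ k := by ring
        _ ≤ C' * (1 + t) ^ k := by
            refine mul_le_mul_of_nonneg_right ((le_max_right _ _).trans (le_max_right _ _)) ?_
            positivity)
  set a : ℝ := min (1 / 4) (ε / (8 * (A' - k + 1))) with ha
  have ha0 : 0 < a := lt_min (by norm_num) (by positivity)
  have ha4 : a ≤ 1 / 4 := min_le_left _ _
  have haε : 4 * a * (A' - k) ≤ ε / 2 := by
    have h1 : a ≤ ε / (8 * (A' - k + 1)) := min_le_right _ _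
    rw [le_div_iff₀ (by positivity)] at h1
    nlinarith
  obtain ⟨c, hc0, hcirc⟩ := circles hc hd h0 (1 / 2) ha0
  refine ⟨K / c * 2 ^ |κ + ε|, fun T hT => ?_⟩
  obtain ⟨r, hr0, hra, hr⟩ := hcirc (τ T)
  set s0 : ℂ := 1 / 2 + T * I with hs0
  have hT1 : 1 ≤ 1 + T := by linarith
  have hbd : ∀ z ∈ frontier (Metric.ball s0 r), ‖f z‖ ≤ K / c * (1 + T) ^ (κ + ε) := by
    intro z hz
    rw [frontier_ball s0 hr0.ne', mem_sphere_iff_norm] at hz
    have h1 := hr (z - T * I) (by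
      rw [show z - T * I - 1 / 2 = z - s0 by rw [hs0]; ring]
      exact hz)
    rw [hτ, sub_add_cancel] at h1
    have h2 := hK T hT (z - s0) (by rw [hz]; linarith)
    have h3 : (1 / 2 + T * I + (z - s0) : ℂ) = z := by rw [hs0]; ring
    simp only [h3] at h2
    rw [norm_mul] at h2
    have h4 : |(z - s0).re| ≤ a := (Complex.abs_re_le_norm _).trans (by rw [hz]; exact hra)
    have h5 : (1 + T) ^ (k + 4 * |(z - s0).re| * (A' - k)) ≤ (1 + T) ^ (κ + ε) := by
      refine Real.rpow_le_rpow_of_exponent_le hT1 ?_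
      have : 4 * |(z - s0).re| * (A' - k) ≤ 4 * a * (A' - k) := by gcongr
      linarith [hk, haε, this]
    have h6 : c * ‖f z‖ ≤ K * (1 + T) ^ (κ + ε) := by
      calc c * ‖f z‖ ≤ ‖D z‖ * ‖f z‖ := by gcongr
        _ ≤ _ := h2
        _ ≤ _ := by gcongr
    rw [div_mul_eq_mul_div, le_div_iff₀ hc0]
    linarith
  have hdcl : DiffContOnCl ℂ f (Metric.ball s0 r) := by
    apply DifferentiableOn.diffContOnCl
    intro z hz
    refine (hf z ?_).differentiableWithinAt
    rintro rfl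
    have hz' := Metric.closure_ball_subset_closedBall hz
    rw [mem_closedBall_iff_norm] at hz'
    have h1 := (Complex.abs_re_le_norm (1 - s0)).trans hz'
    have h2 : (1 - s0).re = 1 / 2 := by rw [hs0]; simp; norm_num
    rw [h2] at h1
    norm_num at h1
    linarith
  have hmax := Complex.norm_le_of_forall_mem_frontier_norm_le Metric.isBounded_ball hdcl hbd
    (subset_closure (Metric.mem_ball_self hr0))
  have h7 := (rpow_shift (κ + ε) hT).2
  calc ‖line f T‖ ≤ K / c * (1 + T) ^ (κ + ε) := hmax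
    _ ≤ K / c * (2 ^ |κ + ε| * T ^ (κ + ε)) := by gcongr
    _ = _ := by ring

end Pool.Agent.H201.Hz
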