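import Pool.Agent.H201.Hz.Ann

/-!
# Two sided bounds, Dirichlet characters
-/

set_option autoImplicit false

namespace Pool.Agent.H201.Hz

open Complex ZMod Filter Topology Set

/-- `f(1/2+it) = O((1+|t|)^(κ+ε))` for every `ε > 0` -/
def LB (κ : ℝ) (f : ℂ → ℂ) : Prop :=
  ∀ ε : ℝ, 0 < ε → ∃ C : ℝ, ∀ t : ℝ, ‖f (1 / 2 + t * I)‖ ≤ C * (1 + |t|) ^ (κ + ε)

theorem LB.bd {κ : ℝ} {f : ℂ → ℂ} (h : LB κ f) : Bd κ (line f) := by
  intro ε hε
  obtain ⟨C, hC⟩ := h ε hε
  refine ⟨|C| * 2 ^ |κ + ε|, fun t ht => ?_⟩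
  have h1 := hC t
  rw [abs_of_nonneg (by linarith : (0 : ℝ) ≤ t)] at h1
  have h2 := (rpow_shift (κ + ε) ht).2
  calc ‖line f t‖ ≤ C * (1 + t) ^ (κ + ε) := h1
    _ ≤ |C| * (1 + t) ^ (κ + ε) := by gcongr; exact le_abs_self C
    _ ≤ |C| * (2 ^ |κ + ε| * t ^ (κ + ε)) := by gcongr
    _ = _ := by ring

theorem LB.of_bd {κ : ℝ} {f : ℂ → ℂ} (hf : ∀ t : ℝ, ContinuousAt f (1 / 2 + t * I))
    (h1 : Bd κ (line f)) (h2 : Bd κ (fun t => f (1 / 2 - t * I))) : LB κ f := by
  intro ε hε
  obtain ⟨C1, hC1⟩ := h1 ε hε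
  obtain ⟨C2, hC2⟩ := h2 ε hε
  have hcont : Continuous fun t : ℝ => f (1 / 2 + t * I) := by
    rw [continuous_iff_continuousAt]
    intro t
    exact ContinuousAt.comp (f := fun t : ℝ => (1 / 2 + t * I : ℂ)) (hf t) (by fun_prop)
  have hcont2 : Continuous fun t : ℝ => ‖f (1 / 2 + t * I)‖ / (1 + |t|) ^ (κ + ε) := by
    refine hcont.norm.div ?_ fun t => (Real.rpow_pos_of_pos (by positivity) _).ne'
    exact (by fun_prop : Continuous fun t : ℝ => 1 + |t|).rpow_const fun t =>
      Or.inl (by positivity)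
  obtain ⟨B, hB⟩ := (isCompact_Icc (a := (-1 : ℝ)) (b := 1)).exists_bound_of_continuousOn
    hcont2.continuousOn
  have key : ∀ (C t : ℝ), 1 ≤ t → C * t ^ (κ + ε) ≤ |C| * 2 ^ |κ + ε| * (1 + t) ^ (κ + ε) := by
    intro C t ht
    have h := (rpow_shift (κ + ε) ht).1
    calc C * t ^ (κ + ε) ≤ |C| * t ^ (κ + ε) := by gcongr; exact le_abs_self C
      _ ≤ |C| * (2 ^ |κ + ε| * (1 + t) ^ (κ + ε)) := by gcongr
      _ = _ := by ring
  refine ⟨max B (max (|C1| * 2 ^ |κ + ε|) (|C2| * 2 ^ |κ + ε|)), fun t => ?_⟩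
  have hp : 0 < (1 + |t|) ^ (κ + ε) := Real.rpow_pos_of_pos (by positivity) _
  rcases le_total |t| 1 with ht | ht
  · have h3 := hB t (abs_le.mp ht)
    rw [Real.norm_eq_abs] at h3
    have h4 := (le_abs_self _).trans h3
    rw [div_le_iff₀ hp] at h4
    exact h4.trans (mul_le_mul_of_nonneg_right (le_max_left _ _) hp.le)
  · rcases le_total 0 t with h0 | h0
    · rw [abs_of_nonneg h0] at ht hp ⊢
      refine (hC1 t ht).trans ((key C1 t ht).trans ?_)
      exact mul_le_mul_of_nonneg_right ((le_max_left _ _).trans (le_max_right _ _)) hp.le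
    · rw [abs_of_nonpos h0] at ht hp ⊢
      have h5 : ‖f (1 / 2 - ((-t : ℝ) : ℂ) * I)‖ ≤ C2 * (-t) ^ (κ + ε) := hC2 (-t) ht
      have h6 : (1 / 2 - ((-t : ℝ) : ℂ) * I : ℂ) = 1 / 2 + t * I := by
        push_cast
        ring
      rw [h6] at h5
      refine h5.trans ((key C2 (-t) ht).trans ?_)
      exact mul_le_mul_of_nonneg_right ((le_max_right _ _).trans (le_max_right _ _)) hp.le

theorem half_ne (t : ℝ) : (1 / 2 + t * I : ℂ) ≠ 1 := by
  intro h
  have := congrArg Complex.re h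
  simp at this

theorem half_ne' (t : ℝ) : (1 / 2 - t * I : ℂ) ≠ 1 := by
  intro h
  have := congrArg Complex.re h
  simp at this

variable {N : ℕ} [NeZero N]

theorem LB_iff (κ : ℝ) (Φ : ZMod N → ℂ) : LB κ (LFunction Φ) ↔
    Bd κ (line (LFunction Φ)) ∧ Bd κ (line (LFunction fun x => (starRingEnd ℂ) (Φ x))) := by
  have hconj : ∀ t : ℝ, ‖LFunction Φ (1 / 2 - t * I)‖ =
      ‖line (LFunction fun x => (starRingEnd ℂ) (Φ x)) t‖ := by
    intro t
    unfold line
    rw [LFunction_conj Φ (half_ne t), RCLike.norm_conj]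
    congr 2
    apply Complex.ext <;> simp
  constructor
  · intro h
    refine ⟨h.bd, ?_⟩
    have h2 : LB κ (fun s => LFunction Φ (1 - s)) := by
      intro ε hε
      obtain ⟨C, hC⟩ := h ε hε
      refine ⟨C, fun t => ?_⟩
      have := hC (-t)
      rw [abs_neg] at this
      refine le_trans (le_of_eq ?_) this
      congr 2
      push_cast
      ring
    refine Bd.norm_le h2.bd fun t _ => ?_
    rw [← hconj]
    refine le_of_eq ?_
    unfold line
    congr 2
    ring
  · rintro ⟨h1, h2⟩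
    refine LB.of_bd (fun t => (diffL Φ (half_ne t)).continuousAt) h1 ?_
    exact h2.norm_le fun t _ => (hconj t).le

theorem LB_all {κ : ℝ} (h : ∀ Φ : ZMod N → ℂ, Bd κ (line (LFunction Φ))) (Φ : ZMod N → ℂ) :
    LB κ (LFunction Φ) := (LB_iff κ Φ).mpr ⟨h _, h _⟩

theorem hurwitz_of_all {κ : ℝ} (h : ∀ Φ : ZMod N → ℂ, Bd κ (line (LFunction Φ))) (a : ZMod N) :
    LB κ (HurwitzZeta.hurwitzZeta (toAddCircle a)) := by
  have h1 := LB_all h (Pi.single a 1)
  have hN : 0 < N := Nat.pos_of_ne_zero (NeZero.ne N)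
  intro ε hε
  obtain ⟨C, hC⟩ := h1 ε hε
  refine ⟨(N : ℝ) ^ (1 / 2 : ℝ) * C, fun t => ?_⟩
  have h2 := hC t
  rw [LFunction_single, norm_mul, Complex.norm_natCast_cpow_of_pos hN] at h2
  have h3 : (-(1 / 2 + t * I : ℂ)).re = -(1 / 2) := by simp
  rw [h3, Real.rpow_neg (by positivity)] at h2
  have h4 : (0 : ℝ) < (N : ℝ) ^ (1 / 2 : ℝ) := by positivity
  rw [inv_mul_le_iff₀ h4] at h2
  rw [mul_assoc]
  exact h2

theorem exp_of_all {κ : ℝ} (h : ∀ Φ : ZMod N → ℂ, Bd κ (line (LFunction Φ))) (a : ZMod N) :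
    LB κ (HurwitzZeta.expZeta (toAddCircle a)) := by
  have h1 := LB_all h (fun k => stdAddChar (a * k))
  intro ε hε
  obtain ⟨C, hC⟩ := h1 ε hε
  refine ⟨C, fun t => ?_⟩
  rw [← LFunction_stdAddChar_eq_expZeta a _ (Or.inr (half_ne t))]
  exact hC t

theorem bd_of_exp {κ : ℝ} {a : ZMod N} (h : Bd κ (line (HurwitzZeta.expZeta (toAddCircle a)))) :
    Bd κ (line (LFunction (Pi.single a (1 : ℂ)))) := by
  refine bd_of_dual ?_
  rw [dual_single]
  exact h.congr fun t _ => LFunction_stdAddChar_eq_expZeta a _ (Or.inr (half_ne t))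

/-- pull back -/
theorem bd_pull {κ : ℝ} {M : ℕ} [NeZero M] (hNM : N ∣ M)
    (h : ∀ Φ : ZMod M → ℂ, Bd κ (line (LFunction Φ))) (Φ : ZMod N → ℂ) :
    Bd κ (line (LFunction Φ)) :=
  (h fun x => Φ (ZMod.castHom hNM (ZMod N) x)).congr fun t _ =>
    (LFunction_pull hNM Φ (half_ne t)).symm

/-- from primitive characters to all characters -/
theorem char_of_prim {κ : ℝ} {M : ℕ}
    (h : ∀ d : ℕ, d ∣ M → ∀ [NeZero d] (χ : DirichletCharacter ℂ d), χ.IsPrimitive →
      Bd κ (line (DirichletCharacter.LFunction χ))) (hN : N ∣ M)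
    (χ : DirichletCharacter ℂ N) : Bd κ (line (DirichletCharacter.LFunction χ)) := by
  have hd := χ.conductor_dvd_level
  have : NeZero χ.conductor := ⟨fun h0 => NeZero.ne N (Nat.eq_zero_of_zero_dvd (h0 ▸ hd))⟩
  have h1 := h χ.conductor (hd.trans hN) χ.primitiveCharacter χ.primitiveCharacter_isPrimitive
  have h2 : ∀ t : ℝ, line (DirichletCharacter.LFunction χ) t =
      (∏ p ∈ N.primeFactors, (1 - χ.primitiveCharacter p * (p : ℂ) ^ (-(1 / 2 + t * I : ℂ)))) *
        line (DirichletCharacter.LFunction χ.primitiveCharacter) t := by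
    intro t
    have h3 := DirichletCharacter.LFunction_changeLevel hd χ.primitiveCharacter
      (Or.inr (half_ne t))
    rw [χ.changeLevel_primitiveCharacter] at h3
    unfold line
    rw [h3, mul_comm]
  refine (h1.mul (K := ∏ p ∈ N.primeFactors, (2 : ℝ)) fun t _ => ?_).congr fun t _ => h2 t
  rw [norm_prod]
  refine Finset.prod_le_prod (fun _ _ => norm_nonneg _) fun p hp => ?_
  refine (norm_sub_le _ _).trans ?_
  rw [norm_one, norm_mul]
  have h4 := χ.primitiveCharacter.norm_le_one p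
  have hp1 := (Nat.prime_of_mem_primeFactors hp).one_lt
  have h5 : ‖(p : ℂ) ^ (-(1 / 2 + t * I : ℂ))‖ ≤ 1 := by
    rw [Complex.norm_natCast_cpow_of_pos (by omega)]
    refine Real.rpow_le_one_of_one_le_of_nonpos (by exact_mod_cast hp1.le) ?_
    simp
  nlinarith [norm_nonneg (χ.primitiveCharacter p), norm_nonneg ((p : ℂ) ^ (-(1 / 2 + t * I : ℂ)))]

/-- from all characters to all periodic functions -/
theorem all_of_char {κ : ℝ} (M : ℕ) [NeZero M]
    (h : ∀ d : ℕ, d ∣ M → ∀ [NeZero d] (χ : DirichletCharacter ℂ d),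
      Bd κ (line (DirichletCharacter.LFunction χ))) :
    ∀ Φ : ZMod M → ℂ, Bd κ (line (LFunction Φ)) := by
  classical
  have key : ∀ n : ℕ, ∀ [NeZero n], n ∣ M → ∀ a : ZMod n,
      Bd κ (line (LFunction (Pi.single a (1 : ℂ)))) := by
    intro n
    induction n using Nat.strong_induction_on with
    | _ n ih =>
      intro _ hn a
      by_cases ha : IsUnit a
      · have hφ : (n.totient : ℂ) ≠ 0 := by
          have := Nat.totient_pos.mpr (Nat.pos_of_ne_zero (NeZero.ne n))
          exact_mod_cast this.ne'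
        have h1 : (Pi.single a (1 : ℂ) : ZMod n → ℂ) =
            ∑ χ : DirichletCharacter ℂ n, ((n.totient : ℂ)⁻¹ * χ a⁻¹) • (fun x => χ x) := by
          funext b
          rw [Finset.sum_apply]
          simp only [Pi.smul_apply, smul_eq_mul, mul_assoc]
          rw [← Finset.mul_sum, DirichletCharacter.sum_char_inv_mul_char_eq ℂ ha b, Pi.single_apply]
          by_cases hb : b = a
          · rw [if_pos hb, if_pos hb.symm, inv_mul_cancel₀ hφ]
          · rw [if_neg hb, if_neg (Ne.symm hb), mul_zero]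
        have h2 : Bd κ (fun t => ∑ χ : DirichletCharacter ℂ n,
            ((n.totient : ℂ)⁻¹ * χ a⁻¹) * line (DirichletCharacter.LFunction χ) t) :=
          Bd.sum _ fun χ _ => (h n hn χ).mul (K := ‖(n.totient : ℂ)⁻¹ * χ a⁻¹‖) fun _ _ => le_rfl
        refine h2.congr fun t _ => ?_
        unfold line
        rw [h1, LFunction_sum]
        rfl
      · rw [← ZMod.natCast_zmod_val a, ZMod.isUnit_iff_coprime, Nat.Prime.not_coprime_iff_dvd] at ha
        obtain ⟨p, hp, ⟨a', ha'⟩, hpn⟩ := ha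
        obtain ⟨m, rfl⟩ := hpn
        have hm0 : m ≠ 0 := by
          rintro rfl
          exact NeZero.ne (p * 0) (by simp)
        have : NeZero m := ⟨hm0⟩
        have hlt : m < p * m := by
          have := hp.two_le
          have := Nat.pos_of_ne_zero hm0
          nlinarith
        have hmM : m ∣ M := (dvd_mul_left m p).trans hn
        have h1 := ih m hlt hmM ((a' : ℕ) : ZMod m)
        have ha2 : a = (p : ZMod (p * m)) * (a' : ZMod (p * m)) := by
          rw [← ZMod.natCast_zmod_val a, ha']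
          push_cast
          rfl
        have hrel : (rel p ((a' : ℕ) : ZMod (p * m)) : ZMod (p * m) → ℂ) = fun x =>
            (Pi.single ((a' : ℕ) : ZMod m) (1 : ℂ) : ZMod m → ℂ)
              (ZMod.castHom (dvd_mul_left m p) (ZMod m) x) := by
          funext x
          unfold rel
          rw [Pi.single_apply]
          have : ((p : ZMod (p * m)) * x = p * ((a' : ℕ) : ZMod (p * m))) ↔
              (ZMod.castHom (dvd_mul_left m p) (ZMod m) x = ((a' : ℕ) : ZMod m)) := by
            obtain ⟨y, rfl⟩ : ∃ y : ℕ, (y : ZMod (p * m)) = x := ⟨x.val, ZMod.natCast_zmod_val x⟩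
            rw [_root_.map_natCast, ← Nat.cast_mul, ← Nat.cast_mul, ZMod.natCast_eq_natCast_iff,
              ZMod.natCast_eq_natCast_iff]
            constructor
            · intro h
              exact Nat.ModEq.mul_left_cancel' hp.ne_zero h
            · intro h
              exact Nat.ModEq.mul_left' p h
          simp only [this]
        refine (h1.mul (g := fun t : ℝ => (p : ℂ) ^ (-(1 / 2 + t * I : ℂ))) (K := 1)
          fun t _ => ?_).congr fun t _ => ?_
        · rw [Complex.norm_natCast_cpow_of_pos hp.pos]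
          refine Real.rpow_le_one_of_one_le_of_nonpos (by exact_mod_cast hp.one_le) ?_
          simp
        · unfold line
          have h3 := LFunction_rel hp.pos (dvd_mul_right p m) ((a' : ℕ) : ZMod (p * m))
            (half_ne t)
          rw [hrel, LFunction_pull (dvd_mul_left m p) _ (half_ne t), ← ha2] at h3
          rw [h3, ← mul_assoc, ← Complex.cpow_add _ _ (by exact_mod_cast hp.ne_zero),
            neg_add_cancel, Complex.cpow_zero, one_mul]
  intro Φ
  have h5 : Bd κ (fun t => ∑ a : ZMod M, Φ a * line (LFunction (Pi.single a 1)) t) :=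
    Bd.sum _ fun a _ => (key M dvd_rfl a).mul (K := ‖Φ a‖) fun _ _ => le_rfl
  exact h5.congr fun t _ => LFunction_lin _ _

end Pool.Agent.H201.Hz
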