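import Pool.Agent.H201.Hz.Fin

/-!
# Short intervals of parameters
-/

set_option autoImplicit false

namespace Pool.Agent.H201.Hz

open Complex ZMod Filter Topology Set

/-- multiples of `N` with small totient -/
theorem small_totient {N : ℕ} (hN : N ≠ 0) {δ : ℝ} (hδ : 0 < δ) :
    ∃ Q : ℕ, N ∣ Q ∧ Q ≠ 0 ∧ (Q.totient : ℝ) < δ * Q := by
  have h1 := (not_summable_iff_tendsto_nat_atTop_of_nonneg (fun n => by
    refine Set.indicator_nonneg (fun x _ => ?_) n
    positivity)).mp not_summable_one_div_on_primes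
  obtain ⟨n, hn⟩ := (h1.eventually (eventually_gt_atTop (-Real.log δ))).exists
  refine ⟨N * n.factorial, dvd_mul_right _ _, mul_ne_zero hN n.factorial_ne_zero, ?_⟩
  set Q := N * n.factorial with hQ
  have hQ0 : Q ≠ 0 := mul_ne_zero hN n.factorial_ne_zero
  have hQpos : (0 : ℝ) < Q := by exact_mod_cast Nat.pos_of_ne_zero hQ0
  have h2 : (Q.totient : ℝ) = Q * ∏ p ∈ Q.primeFactors, (1 - (p : ℝ)⁻¹) := by
    have := congrArg (fun x : ℚ => (x : ℝ)) (Nat.totient_eq_mul_prod_factors Q)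
    push_cast at this
    exact this
  have h3 : ∏ p ∈ Q.primeFactors, (1 - (p : ℝ)⁻¹) ≤
      ∏ p ∈ (Finset.range n).filter Nat.Prime, (1 - (p : ℝ)⁻¹) := by
    have hsub : (Finset.range n).filter Nat.Prime ⊆ Q.primeFactors := by
      intro p hp
      rw [Finset.mem_filter, Finset.mem_range] at hp
      refine Nat.mem_primeFactors.mpr ⟨hp.2, ?_, hQ0⟩
      exact (Nat.dvd_factorial hp.2.pos hp.1.le).trans (dvd_mul_left _ _)
    have hnn : ∀ p ∈ Q.primeFactors, (0 : ℝ) ≤ 1 - (p : ℝ)⁻¹ := by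
      intro p hp
      have : (1 : ℝ) ≤ p := by exact_mod_cast (Nat.pos_of_mem_primeFactors hp)
      have := inv_le_one_of_one_le₀ this
      linarith
    rw [← Finset.prod_sdiff hsub]
    refine mul_le_of_le_one_left (Finset.prod_nonneg fun p hp => hnn p (hsub hp)) ?_
    refine Finset.prod_le_one (fun p hp => hnn p (Finset.mem_sdiff.mp hp).1) fun p _ => ?_
    have : 0 ≤ (p : ℝ)⁻¹ := by positivity
    linarith
  have h4 : ∏ p ∈ (Finset.range n).filter Nat.Prime, (1 - (p : ℝ)⁻¹) ≤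
      Real.exp (-∑ p ∈ (Finset.range n).filter Nat.Prime, (p : ℝ)⁻¹) := by
    rw [← Finset.sum_neg_distrib, Real.exp_sum]
    refine Finset.prod_le_prod (fun p hp => ?_) fun p _ => ?_
    · rw [Finset.mem_filter] at hp
      have : (1 : ℝ) ≤ p := by exact_mod_cast hp.2.pos
      have := inv_le_one_of_one_le₀ this
      linarith
    · have := Real.add_one_le_exp (-(p : ℝ)⁻¹)
      linarith
  have h5 : ∑ i ∈ Finset.range n, Set.indicator {p : ℕ | p.Prime} (fun n : ℕ => (1 : ℝ) / n) i =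
      ∑ p ∈ (Finset.range n).filter Nat.Prime, (p : ℝ)⁻¹ := by
    rw [Finset.sum_filter]
    refine Finset.sum_congr rfl fun i _ => ?_
    rw [Set.indicator_apply]
    simp only [Set.mem_ofPred_eq, one_div]
  rw [h5] at hn
  have h6 : Real.exp (-∑ p ∈ (Finset.range n).filter Nat.Prime, (p : ℝ)⁻¹) < δ := by
    rw [← Real.lt_log_iff_exp_lt hδ]
    linarith
  rw [h2, mul_comm]
  exact mul_lt_mul_of_pos_right (h3.trans_lt (h4.trans_lt h6)) hQpos

theorem rat_circle (α : ℚ) :
    haveI : NeZero α.den := ⟨α.den_ne_zero⟩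
    toAddCircle ((α.num : ℤ) : ZMod α.den) = (((α : ℝ) : UnitAddCircle)) := by
  have : NeZero α.den := ⟨α.den_ne_zero⟩
  rw [ZMod.toAddCircle_intCast]
  congr 1
  rw [Rat.cast_def]

/-- the block of residues -/
theorem block {Q : ℕ} [NeZero Q] (b : ℤ) {m : ℕ} (hm : m ≤ Q) (hQ : Q.totient ≤ m) :
    Good ((Finset.range m).image fun j : ℕ => ((b + j : ℤ) : ZMod Q)) := by
  classical
  have hcard : ((Finset.range m).image fun j : ℕ => ((b + j : ℤ) : ZMod Q)).card = m := by
    rw [Finset.card_image_of_injOn, Finset.card_range]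
    intro i hi j hj hij
    have hi' : i < m := by simpa using hi
    have hj' : j < m := by simpa using hj
    simp only [Int.cast_add, Int.cast_natCast, add_right_inj] at hij
    rw [ZMod.natCast_eq_natCast_iff] at hij
    exact Nat.ModEq.eq_of_lt_of_lt hij (by omega) (by omega)
  refine ⟨by rw [hcard]; omega, Or.inr ⟨(b : ZMod Q), 1, isUnit_one, fun j hj => ?_⟩⟩
  rw [hcard] at hj
  rw [Finset.mem_image]
  exact ⟨j, Finset.mem_range.mpr hj, by push_cast; ring⟩

/-- main theorem at level `N`, two sided form -/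
theorem level_all {N : ℕ} [NeZero N] {κ : ℝ} {S : Finset (ZMod N)} (hS : Good S)
    (h : ∀ a ∈ S, LB κ (HurwitzZeta.hurwitzZeta (toAddCircle a)) ∨
      LB κ (HurwitzZeta.expZeta (toAddCircle a))) (Φ : ZMod N → ℂ) :
    Bd κ (line (LFunction Φ)) := by
  refine crit2 S (fun a ha => ?_) (fun g h1 h2 h3 => good_ann hS h1 h2 h3) Φ
  rcases h a ha with h | h
  · have hN : 0 < N := Nat.pos_of_ne_zero (NeZero.ne N)
    refine (h.bd.mul (g := fun t : ℝ => (N : ℂ) ^ (-(1 / 2 + t * I : ℂ))) (K := 1)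
      fun t _ => ?_).congr fun t _ => LFunction_single _ _
    rw [Complex.norm_natCast_cpow_of_pos hN]
    refine Real.rpow_le_one_of_one_le_of_nonpos (by exact_mod_cast hN) ?_
    simp
  · exact bd_of_exp h.bd

theorem level_iff {N : ℕ} [NeZero N] {κ : ℝ} {S : Finset (ZMod N)} (hS : Good S) :
    (∀ a ∈ S, LB κ (HurwitzZeta.hurwitzZeta (toAddCircle a)) ∨
      LB κ (HurwitzZeta.expZeta (toAddCircle a))) ↔
    ∀ d : ℕ, d ∣ N → ∀ [NeZero d] (χ : DirichletCharacter ℂ d), χ.IsPrimitive →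
      LB κ (DirichletCharacter.LFunction χ) := by
  constructor
  · intro h d hd _ χ _
    exact LB_all (bd_pull hd (level_all hS h)) χ
  · intro h a _
    left
    refine hurwitz_of_all (all_of_char N fun d hd _ χ => ?_) a
    exact char_of_prim (M := N) (fun d hd _ χ hχ => (h d hd χ hχ).bd) hd χ

theorem interval_iff {κ β γ : ℝ} (hβγ : β < γ) :
    (∀ α : ℚ, β < α → α < γ → LB κ (HurwitzZeta.hurwitzZeta ((α : ℝ) : UnitAddCircle)) ∨
      LB κ (HurwitzZeta.expZeta ((α : ℝ) : UnitAddCircle))) ↔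
    ∀ (N : ℕ) [NeZero N] (χ : DirichletCharacter ℂ N),
      LB κ (DirichletCharacter.LFunction χ) := by
  constructor
  · intro h N _ χ
    obtain ⟨Q, hNQ, hQ0, hQ⟩ := small_totient (NeZero.ne N) (sub_pos.mpr hβγ)
    have : NeZero Q := ⟨hQ0⟩
    have hQpos : (0 : ℝ) < Q := by exact_mod_cast Nat.pos_of_ne_zero hQ0
    set b : ℤ := ⌊β * Q⌋ + 1 with hb
    have hgood := block (Q := Q) b (Nat.totient_le Q) le_rfl
    refine LB_all (bd_pull hNQ (level_all hgood fun a ha => ?_)) χ
    rw [Finset.mem_image] at ha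
    obtain ⟨j, hj, rfl⟩ := ha
    rw [Finset.mem_range] at hj
    rw [ZMod.toAddCircle_intCast]
    have h1 := h (((b + j : ℤ) : ℚ) / (Q : ℚ))
    have h2 : ((((b + j : ℤ) : ℚ) / (Q : ℚ) : ℚ) : ℝ) = ((b + j : ℤ) : ℝ) / (Q : ℝ) := by
      push_cast
      rfl
    rw [h2] at h1
    have hb1 : β * Q < b := by
      rw [hb]
      push_cast
      exact Int.lt_floor_add_one _
    have hb2 : (b : ℝ) ≤ β * Q + 1 := by
      rw [hb]
      push_cast
      linarith [Int.floor_le (β * Q)]
    refine h1 ?_ ?_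
    · rw [lt_div_iff₀ hQpos]
      push_cast
      have : (0 : ℝ) ≤ j := Nat.cast_nonneg j
      linarith
    · rw [div_lt_iff₀ hQpos]
      push_cast
      have : (j : ℝ) + 1 ≤ Q.totient := by exact_mod_cast hj
      nlinarith
  · intro h α _ _
    left
    have : NeZero α.den := ⟨α.den_ne_zero⟩
    rw [← rat_circle α]
    exact hurwitz_of_all (all_of_char α.den fun d _ _ χ => (h d χ).bd) _

end Pool.Agent.H201.Hz
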