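import Pool.Agent.H201.Hz.Solve

/-!
# The linear system of distribution relations
-/

set_option autoImplicit false

namespace Pool.Agent.H201.Hz

open Complex ZMod Filter Topology Set

variable {N : ℕ} [NeZero N]

theorem LFunction_single (a : ZMod N) (s : ℂ) :
    LFunction (Pi.single a 1) s = (N : ℂ) ^ (-s) * HurwitzZeta.hurwitzZeta (toAddCircle a) s := by
  unfold LFunction
  congr 1
  rw [Finset.sum_eq_single a]
  · simp
  · intro b _ hb
    rw [Pi.single_eq_of_ne hb, zero_mul]
  · intro h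
    exact absurd (Finset.mem_univ a) h

theorem LFunction_lin (Φ : ZMod N → ℂ) (s : ℂ) :
    LFunction Φ s = ∑ a, Φ a * LFunction (Pi.single a 1) s := by
  simp only [LFunction_single]
  unfold LFunction
  rw [Finset.mul_sum]
  refine Finset.sum_congr rfl fun a _ => ?_
  ring

theorem LFunction_add (Φ Ψ : ZMod N → ℂ) (s : ℂ) :
    LFunction (Φ + Ψ) s = LFunction Φ s + LFunction Ψ s := by
  rw [LFunction_lin Φ, LFunction_lin Ψ, LFunction_lin (Φ + Ψ), ← Finset.sum_add_distrib]
  refine Finset.sum_congr rfl fun a _ => ?_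
  rw [Pi.add_apply]
  ring

theorem LFunction_smul (c : ℂ) (Φ : ZMod N → ℂ) (s : ℂ) :
    LFunction (c • Φ) s = c * LFunction Φ s := by
  rw [LFunction_lin Φ, LFunction_lin (c • Φ), Finset.mul_sum]
  refine Finset.sum_congr rfl fun a _ => ?_
  rw [Pi.smul_apply, smul_eq_mul]
  ring

theorem LFunction_sum {ι : Type*} (t : Finset ι) (c : ι → ℂ) (Φ : ι → ZMod N → ℂ) (s : ℂ) :
    LFunction (∑ i ∈ t, c i • Φ i) s = ∑ i ∈ t, c i * LFunction (Φ i) s := by
  classical
  induction t using Finset.induction_on with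
  | empty =>
    simp only [Finset.sum_empty]
    rw [LFunction_lin]
    simp
  | insert a t ha ih => rw [Finset.sum_insert ha, Finset.sum_insert ha, LFunction_add,
      LFunction_smul, ih]

/-- indicator function of the coset `{x | p x = p b}` -/
noncomputable def rel (p : ℕ) (b : ZMod N) : ZMod N → ℂ :=
  fun x => if (p : ZMod N) * x = p * b then 1 else 0

theorem LFunction_rel {p : ℕ} (hp0 : 0 < p) (hp : p ∣ N) (b : ZMod N) {s : ℂ} (hs : s ≠ 1) :
    LFunction (rel p b) s = (p : ℂ) ^ s * LFunction (Pi.single ((p : ZMod N) * b) 1) s := by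
  have h1 := LFunction_mul hp0 (Pi.single ((p : ZMod N) * b) (1 : ℂ)) (fun n hn => by
    rw [Pi.single_apply, if_neg]
    intro h
    apply hn
    have h2 : ((p * b.val : ℕ) : ZMod N) = (n : ZMod N) := by
      rw [h]
      push_cast
      rw [ZMod.natCast_zmod_val]
    rw [ZMod.natCast_eq_natCast_iff] at h2
    have h3 : p * b.val ≡ n [MOD p] := h2.of_dvd hp
    have h4 : 0 ≡ n [MOD p] := by
      refine Nat.ModEq.trans ?_ h3
      exact (Nat.modEq_zero_iff_dvd.mpr (dvd_mul_right _ _)).symm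
    exact (Nat.modEq_zero_iff_dvd.mp h4.symm)) hs
  have h2 : (fun x => (Pi.single ((p : ZMod N) * b) (1 : ℂ) : ZMod N → ℂ) ((p : ZMod N) * x)) =
      rel p b := by
    funext x
    unfold rel
    rw [Pi.single_apply]
  rw [h2] at h1
  rw [h1, ← mul_assoc, ← Complex.cpow_add _ _ (by exact_mod_cast hp0.ne'), add_neg_cancel,
    Complex.cpow_zero, one_mul]

theorem growth' (Φ : ZMod N → ℂ) : ∃ C A : ℝ, ∀ s : ℂ, 1 / 4 ≤ s.re → s.re ≤ 3 / 4 →
    ‖LFunction Φ s‖ ≤ C * (1 + |s.im|) ^ A := by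
  obtain ⟨C, A, h⟩ := growth Φ
  have hcomp : IsCompact (Icc (1 / 4 : ℝ) (3 / 4) ×ˢ Icc (-1 : ℝ) 1) :=
    isCompact_Icc.prod isCompact_Icc
  have hcont : ContinuousOn (fun q : ℝ × ℝ => LFunction Φ (q.1 + q.2 * I))
      (Icc (1 / 4 : ℝ) (3 / 4) ×ˢ Icc (-1 : ℝ) 1) := by
    intro q hq
    have hne : (q.1 + q.2 * I : ℂ) ≠ 1 := by
      intro h
      have := congrArg Complex.re h
      simp at this
      have h3 := hq.1.2
      rw [this] at h3
      norm_num at h3
    have h1 : ContinuousAt (LFunction Φ) (q.1 + q.2 * I : ℂ) := (diffL Φ hne).continuousAt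
    exact (ContinuousAt.comp (f := fun q : ℝ × ℝ => (q.1 + q.2 * I : ℂ)) h1
      (by fun_prop)).continuousWithinAt
  obtain ⟨B, hB⟩ := hcomp.exists_bound_of_continuousOn hcont
  refine ⟨max |C| B, A, fun s h1 h2 => ?_⟩
  have h3 : (1 : ℝ) ≤ 1 + |s.im| := by linarith [abs_nonneg s.im]
  have h4 : 0 ≤ max |C| B := (abs_nonneg C).trans (le_max_left _ _)
  rcases le_total 1 |s.im| with h5 | h5
  · calc ‖LFunction Φ s‖ ≤ C * |s.im| ^ A := h s (by linarith) (by linarith) h5
      _ ≤ max |C| B * (1 + |s.im|) ^ A := by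
          refine mul_le_mul ((le_abs_self C).trans (le_max_left _ _)) ?_ (by positivity) h4
          gcongr
          linarith
      _ = _ := by rw [Real.rpow_natCast]
  · have h6 := hB (s.re, s.im) ⟨⟨h1, h2⟩, abs_le.mp h5⟩
    simp only [Complex.re_add_im] at h6
    calc ‖LFunction Φ s‖ ≤ B := h6
      _ ≤ max |C| B * 1 := by rw [mul_one]; exact le_max_right _ _
      _ ≤ _ := by
          gcongr
          exact Real.one_le_rpow h3 (Nat.cast_nonneg _)

/-- the determinant criterion -/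
theorem criterion {κ : ℝ} (W : Submodule ℂ (ZMod N → ℂ))
    (hW : ∀ Φ ∈ W, Bd κ (line (LFunction Φ)))
    (hann : ∀ g : ZMod N → ℂ, (∀ Φ ∈ W, ∑ x, Φ x * g x = 0) →
      (∀ p ∈ N.primeFactors, ∀ b : ZMod N, ∑ x, rel p b x * g x = 0) → g = 0)
    (Φ : ZMod N → ℂ) : Bd κ (line (LFunction Φ)) := by
  classical
  set R : N.primeFactors × ZMod N → ZMod N → ℂ := fun q => rel (q.1 : ℕ) q.2 with hR
  set U : Submodule ℂ (ZMod N → ℂ) := W ⊔ Submodule.span ℂ (range R) with hU
  have hUtop : U = ⊤ := by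
    by_contra hne
    obtain ⟨f, hf0, hf⟩ := U.exists_le_ker_of_lt_top (lt_top_iff_ne_top.mpr hne)
    have hfx : ∀ Ψ : ZMod N → ℂ, f Ψ = ∑ x, Ψ x * f (Pi.single x 1) := by
      intro Ψ
      have : Ψ = ∑ x, Ψ x • (Pi.single x 1 : ZMod N → ℂ) := by
        funext y
        rw [Finset.sum_apply, Finset.sum_eq_single y]
        · simp
        · intro b _ hb
          rw [Pi.smul_apply, Pi.single_eq_of_ne hb.symm, smul_zero]
        · intro h
          exact absurd (Finset.mem_univ y) h
      conv_lhs => rw [this]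
      rw [map_sum]
      refine Finset.sum_congr rfl fun x _ => ?_
      rw [_root_.map_smul, smul_eq_mul]
    have hg := hann (fun x => f (Pi.single x 1))
      (fun Ψ hΨ => by
        rw [← hfx]
        exact hf (Submodule.mem_sup_left hΨ))
      (fun p hp b => by
        rw [← hfx]
        exact hf (Submodule.mem_sup_right (Submodule.subset_span ⟨(⟨p, hp⟩, b), rfl⟩)))
    apply hf0
    ext Ψ
    simp [congrFun hg Ψ]
  have hdec : ∀ a : ZMod N, ∃ v ∈ W, ∃ c : N.primeFactors × ZMod N → ℂ,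
      (Pi.single a 1 : ZMod N → ℂ) = v + ∑ q, c q • R q := by
    intro a
    have : (Pi.single a 1 : ZMod N → ℂ) ∈ U := by rw [hUtop]; trivial
    rw [hU, Submodule.mem_sup] at this
    obtain ⟨v, hv, w, hw, hvw⟩ := this
    rw [Submodule.mem_span_range_iff_exists_fun] at hw
    obtain ⟨c, hc⟩ := hw
    exact ⟨v, hv, c, by rw [hc, hvw]⟩
  choose v hvW c hvc using hdec
  set M : N.primeFactors → Matrix (ZMod N) (ZMod N) ℂ := fun p => Matrix.of fun a a' =>
    ∑ b : ZMod N, if ((p : ℕ) : ZMod N) * b = a' then c a (p, b) else 0 with hM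
  set x : ℂ → ZMod N → ℂ := fun s a => LFunction (Pi.single a 1) s with hx
  set y : ℂ → ZMod N → ℂ := fun s a => LFunction (v a) s with hy
  have hsys : ∀ s : ℂ, s ≠ 1 →
      (matw M fun p : N.primeFactors => ((p : ℕ) : ℂ) ^ s).mulVec (x s) = y s := by
    intro s hs
    funext a
    have h1 : x s a = y s a + ∑ q : N.primeFactors × ZMod N,
        c a q * ((((q.1 : ℕ) : ℂ) ^ s) * x s (((q.1 : ℕ) : ZMod N) * q.2)) := by
      rw [hx]
      simp only
      rw [hvc a, LFunction_add, LFunction_sum]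
      congr 1
      refine Finset.sum_congr rfl fun q _ => ?_
      rw [hR]
      simp only
      rw [LFunction_rel (Nat.pos_of_mem_primeFactors q.1.2) (Nat.dvd_of_mem_primeFactors q.1.2) _ hs]
    unfold matw
    rw [Matrix.sub_mulVec, Matrix.one_mulVec, Pi.sub_apply, h1, Matrix.sum_mulVec, Finset.sum_apply,
      Fintype.sum_prod_type]
    rw [add_sub_assoc, ← Finset.sum_sub_distrib]
    rw [Finset.sum_eq_zero, add_zero]
    intro p _
    rw [Matrix.smul_mulVec, Pi.smul_apply, Matrix.mulVec, dotProduct, hM]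
    simp only [Matrix.of_apply, smul_eq_mul]
    rw [sub_eq_zero, Finset.mul_sum]
    simp only [Finset.sum_mul, Finset.mul_sum]
    rw [Finset.sum_comm]
    refine Finset.sum_congr rfl fun b _ => ?_
    rw [Finset.sum_eq_single (((p : ℕ) : ZMod N) * b)]
    · rw [if_pos rfl]
      ring
    · intro a' _ ha'
      rw [if_neg ha'.symm]
      ring
    · intro h
      exact absurd (Finset.mem_univ _) h
  have hbasis : ∀ a : ZMod N, Bd κ (line (LFunction (Pi.single a 1))) := fun a =>
    solve (fun p : N.primeFactors => (p : ℕ)) M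
      (fun p => (Nat.prime_of_mem_primeFactors p.2).two_le) hsys
      (fun a s hs => diffL _ hs) (fun a => growth' _) (fun a => hW _ (hvW a)) a
  have h5 : Bd κ (fun t => ∑ a : ZMod N, Φ a * line (LFunction (Pi.single a 1)) t) :=
    Bd.sum _ fun a _ => (hbasis a).mul (K := ‖Φ a‖) fun _ _ => le_rfl
  exact h5.congr fun t _ => LFunction_lin _ _

end Pool.Agent.H201.Hz
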