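import Pool.Agent.H201.Hz.Div

/-!
# Linear systems whose coefficients are Dirichlet polynomials
-/

set_option autoImplicit false

namespace Pool.Agent.H201.Hz

open Complex Filter Topology Set

section family

variable {P n : Type*} [Fintype P] [Fintype n] [DecidableEq n] (p : P → ℕ) (M : P → Matrix n n ℂ)

/-- the matrix `1 - ∑ w_p M_p` -/
noncomputable def matw (w : P → ℂ) : Matrix n n ℂ := 1 - ∑ i : P, w i • M i

omit [Fintype n] in
theorem matw_apply (w : P → ℂ) (a b : n) : matw M w a b =
    (1 : Matrix n n ℂ) a b - ∑ i : P, w i * M i a b := by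
  unfold matw
  rw [Matrix.sub_apply, Matrix.sum_apply]
  simp only [Matrix.smul_apply, smul_eq_mul]

omit [Fintype n] in
theorem matw_cont : Continuous (matw M) := by
  refine continuous_matrix fun a b => ?_
  simp only [matw_apply]
  fun_prop

theorem matw_det_cont : Continuous fun w => (matw M w).det := (matw_cont M).matrix_det

theorem matw_adj_cont (a b : n) : Continuous fun w => (matw M w).adjugate a b :=
  Continuous.matrix_elem (Continuous.matrix_adjugate (matw_cont M)) a b

/-- the point `θ_p p^z` -/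
noncomputable def pt (θ : P → Circle) (z : ℂ) : P → ℂ := fun i => (θ i : ℂ) * (p i : ℂ) ^ z

omit [Fintype P] in
theorem pt_cont (hp : ∀ i, 2 ≤ p i) : Continuous fun q : (P → Circle) × ℂ => pt p q.1 q.2 := by
  refine continuous_pi fun i => ?_
  unfold pt
  have : (p i : ℂ) ≠ 0 := by
    have := hp i
    exact_mod_cast (by omega : p i ≠ 0)
  refine Continuous.mul ?_ (continuous_snd.const_cpow (Or.inl this))
  fun_prop

theorem det_diff (hp : ∀ i, 2 ≤ p i) (θ : P → Circle) :
    Differentiable ℂ fun z => (matw M (pt p θ z)).det := by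
  simp only [Matrix.det_apply']
  refine Differentiable.fun_sum fun σ _ => Differentiable.const_mul ?_ _
  refine Differentiable.fun_finsetProd fun i _ => ?_
  simp only [matw_apply, pt]
  refine (differentiable_const _).sub (Differentiable.fun_sum fun j _ => ?_)
  refine Differentiable.mul_const (Differentiable.const_mul ?_ _) _
  have : (p j : ℂ) ≠ 0 := by
    have := hp j
    exact_mod_cast (by omega : p j ≠ 0)
  exact differentiable_id.const_cpow (Or.inl this)

theorem det_ne (hp : ∀ i, 2 ≤ p i) (θ : P → Circle) : ∃ z, (matw M (pt p θ z)).det ≠ 0 := by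
  have hlim : Tendsto (fun x : ℝ => (matw M (pt p θ (x : ℂ))).det) atBot (𝓝 1) := by
    have h1 : Tendsto (fun x : ℝ => pt p θ (x : ℂ)) atBot (𝓝 0) := by
      rw [tendsto_pi_nhds]
      intro i
      unfold pt
      rw [Pi.zero_apply, ← mul_zero (θ i : ℂ)]
      refine Tendsto.const_mul _ ?_
      have h2 := tendsto_rpow_atBot_of_base_gt_one (p i : ℝ)
        (by have := hp i; exact_mod_cast (by omega : 1 < p i))
      have h3 := (Complex.continuous_ofReal.tendsto 0).comp h2
      rw [Complex.ofReal_zero] at h3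
      refine h3.congr fun x => ?_
      simp only [Function.comp_apply]
      rw [Complex.ofReal_cpow (by positivity)]
      push_cast
      rfl
    have h4 := ((matw_det_cont M).tendsto 0).comp h1
    have h5 : (matw M 0).det = 1 := by
      unfold matw
      simp
    rw [h5] at h4
    exact h4
  obtain ⟨z, hz⟩ := (hlim.eventually (isOpen_ne.mem_nhds (one_ne_zero (α := ℂ)))).exists
  exact ⟨_, hz⟩

theorem adj_bd (hp : ∀ i, 2 ≤ p i) (a b : n) :
    ∃ K : ℝ, ∀ θ : P → Circle, ‖(matw M (pt p θ (1 / 2))).adjugate a b‖ ≤ K := by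
  have hcont : Continuous fun θ : P → Circle => (matw M (pt p θ (1 / 2))).adjugate a b :=
    (matw_adj_cont M a b).comp
      ((pt_cont p hp).comp (Continuous.prodMk continuous_id continuous_const))
  obtain ⟨K, hK⟩ := isCompact_univ.exists_bound_of_continuousOn hcont.continuousOn
  exact ⟨K, fun θ => hK θ (mem_univ _)⟩

/-- translations -/
noncomputable def tw (T : ℝ) : P → Circle := fun i => Circle.exp (T * Real.log (p i))

omit [Fintype P] in
theorem pt_tw (hp : ∀ i, 2 ≤ p i) (T : ℝ) (z : ℂ) :
    pt p (tw p T) z = fun i => (p i : ℂ) ^ (z + T * I) := by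
  funext i
  have h0 : (p i : ℂ) ≠ 0 := by
    have := hp i
    exact_mod_cast (by omega : p i ≠ 0)
  unfold pt tw
  rw [Circle.coe_exp, Complex.cpow_add _ _ h0, mul_comm]
  congr 1
  rw [Complex.cpow_def_of_ne_zero h0, ← Complex.natCast_log]
  congr 1
  push_cast
  ring

/-- Cramer's rule and division by the determinant -/
theorem solve (hp : ∀ i, 2 ≤ p i) {x y : ℂ → n → ℂ}
    (hsys : ∀ s : ℂ, s ≠ 1 → (matw M fun i => (p i : ℂ) ^ s).mulVec (x s) = y s)
    (hx : ∀ a, ∀ s : ℂ, s ≠ 1 → DifferentiableAt ℂ (fun s => x s a) s)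
    (hg : ∀ a, ∃ C A : ℝ, ∀ s : ℂ, 1 / 4 ≤ s.re → s.re ≤ 3 / 4 → ‖x s a‖ ≤ C * (1 + |s.im|) ^ A)
    {κ : ℝ} (hy : ∀ a, Bd κ (line (fun s => y s a))) (a : n) : Bd κ (line (fun s => x s a)) := by
  refine divide (F := fun θ z => (matw M (pt p θ z)).det)
    ((matw_det_cont M).comp (pt_cont p hp))
    (det_diff p M hp) (det_ne p M hp)
    (D := fun s => (matw M fun i => (p i : ℂ) ^ s).det) (tw p)
    (fun T z => by rw [pt_tw p hp]) (hx a) (hg a) ?_
  have h1 : Bd κ (fun t => ∑ b, (matw M (pt p (tw p t) (1 / 2))).adjugate a b *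
      line (fun s => y s b) t) := by
    refine Bd.sum _ fun b _ => ?_
    obtain ⟨K, hK⟩ := adj_bd p M hp a b
    exact (hy b).mul fun t _ => hK _
  refine h1.congr fun t ht => ?_
  have hne : (1 / 2 + t * I : ℂ) ≠ 1 := by
    intro h
    have := congrArg Complex.re h
    simp at this
  rw [pt_tw p hp]
  have h2 := congrArg (Matrix.mulVec (matw M fun i => (p i : ℂ) ^ (1 / 2 + t * I : ℂ)).adjugate)
    (hsys _ hne)
  rw [Matrix.mulVec_mulVec, Matrix.adjugate_mul, Matrix.smul_mulVec, Matrix.one_mulVec] at h2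
  have h3 := congrFun h2 a
  rw [Pi.smul_apply, smul_eq_mul] at h3
  exact h3

end family

end Pool.Agent.H201.Hz
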