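import Mathlib

/-!
# A one sided local three lines theorem
-/

set_option autoImplicit false

namespace Pool.Agent.H201.Hz

open Complex Filter Topology Set

theorem peetre (k u T : ℝ) : (1 + |u|) ^ k ≤ (1 + |T|) ^ k * (1 + |u - T|) ^ |k| := by
  have hu : 0 < 1 + |u| := by positivity
  have hT : 0 < 1 + |T| := by positivity
  have hv : 1 ≤ 1 + |u - T| := by linarith [abs_nonneg (u - T)]
  rcases le_total 0 k with hk | hk
  · rw [abs_of_nonneg hk, ← Real.mul_rpow hT.le (by linarith)]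
    refine Real.rpow_le_rpow hu.le ?_ hk
    have : |u| ≤ |T| + |u - T| := by
      have := abs_add_le T (u - T)
      rwa [add_sub_cancel] at this
    nlinarith [abs_nonneg T, abs_nonneg (u - T)]
  · rw [abs_of_nonpos hk]
    have h1 : (1 + |T|) ^ (-k) ≤ (1 + |u|) ^ (-k) * (1 + |u - T|) ^ (-k) := by
      rw [← Real.mul_rpow hu.le (by linarith)]
      refine Real.rpow_le_rpow hT.le ?_ (by linarith)
      have : |T| ≤ |u| + |u - T| := by
        have := abs_add_le u (T - u)
        rw [abs_sub_comm T u, add_sub_cancel] at this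
        exact this
      nlinarith [abs_nonneg u, abs_nonneg (u - T)]
    have h2 : (1 + |T|) ^ k * (1 + |T|) ^ (-k) = 1 := by
      rw [← Real.rpow_add hT, add_neg_cancel, Real.rpow_zero]
    have h3 : (1 + |u|) ^ k * (1 + |u|) ^ (-k) = 1 := by
      rw [← Real.rpow_add hu, add_neg_cancel, Real.rpow_zero]
    have p1 : 0 < (1 + |u|) ^ k := Real.rpow_pos_of_pos hu _
    have p2 : 0 < (1 + |T|) ^ k := Real.rpow_pos_of_pos hT _
    calc (1 + |u|) ^ k = ((1 + |T|) ^ k * (1 + |u|) ^ k) * (1 + |T|) ^ (-k) := by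
          rw [mul_comm ((1 + |T|) ^ k), mul_assoc, h2, mul_one]
      _ ≤ ((1 + |T|) ^ k * (1 + |u|) ^ k) * ((1 + |u|) ^ (-k) * (1 + |u - T|) ^ (-k)) := by
          gcongr
      _ = (1 + |T|) ^ k * ((1 + |u|) ^ k * (1 + |u|) ^ (-k)) * (1 + |u - T|) ^ (-k) := by ring
      _ = _ := by rw [h3, mul_one]

theorem kern {M : ℝ} (hM : 0 ≤ M) (v : ℝ) :
    (2 + |v|) ^ M * Real.exp (-v ^ 2) ≤ 2 ^ M * Real.exp (M ^ 2 / 16) := by
  have h1 : 2 + |v| ≤ 2 * Real.exp (|v| / 2) := by
    have := Real.add_one_le_exp (|v| / 2)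
    linarith
  calc (2 + |v|) ^ M * Real.exp (-v ^ 2) ≤ (2 * Real.exp (|v| / 2)) ^ M * Real.exp (-v ^ 2) := by
        gcongr
    _ = 2 ^ M * Real.exp (|v| / 2 * M + -v ^ 2) := by
        rw [Real.mul_rpow (by norm_num) (Real.exp_pos _).le, ← Real.exp_mul, Real.exp_add]
        ring
    _ ≤ _ := by
        gcongr
        nlinarith [sq_nonneg (|v| - M / 4), sq_abs v]

/-- Bounds near the critical line from bounds on the upper half of the critical line and
polynomial growth. -/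
theorem strip_bound {G : ℂ → ℂ} {C A k : ℝ} (hC : 1 ≤ C) (hkA : |k| ≤ A)
    (hd : ∀ s : ℂ, 1 / 4 ≤ s.re → s.re ≤ 3 / 4 → DifferentiableAt ℂ G s)
    (hA : ∀ s : ℂ, 1 / 4 ≤ s.re → s.re ≤ 3 / 4 → ‖G s‖ ≤ C * (1 + |s.im|) ^ A)
    (hk : ∀ t : ℝ, 1 ≤ t → ‖G (1 / 2 + t * I)‖ ≤ C * (1 + |t|) ^ k) :
    ∃ K : ℝ, 0 < K ∧ ∀ T : ℝ, 1 ≤ T → ∀ z : ℂ, ‖z‖ ≤ 1 / 4 →
      ‖G (1 / 2 + T * I + z)‖ ≤ K * (1 + T) ^ (k + 4 * |z.re| * (A - k)) := by
  have hk1 := abs_le.mp hkA
  have hA0 : 0 ≤ A := (abs_nonneg k).trans hkA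
  have hB : 0 ≤ A - k := by linarith
  set M : ℝ := |k| + (A - k) with hM
  have hM0 : 0 ≤ M := by positivity
  have hMA : A ≤ M := by have := le_abs_self k; linarith
  set K0 : ℝ := 2 ^ M * Real.exp (M ^ 2 / 16) with hK0
  have hK0pos : 0 < K0 := by positivity
  set Q : ℝ := C * Real.exp 1 * K0 with hQ
  have hC0 : 0 < C := by linarith
  have hQpos : 0 < Q := by positivity
  refine ⟨Real.exp 1 * Q, by positivity, fun T hT z hz => ?_⟩
  have hT0 : 0 < T := by linarith
  have hTabs : |T| = T := abs_of_pos hT0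
  -- the sign
  obtain ⟨l, hl, hlz⟩ : ∃ l : ℝ, (l = 1 / 4 ∨ l = -(1 / 4)) ∧ z.re / l = 4 * |z.re| := by
    rcases le_total 0 z.re with h | h
    · exact ⟨1 / 4, Or.inl rfl, by rw [abs_of_nonneg h]; ring⟩
    · exact ⟨-(1 / 4), Or.inr rfl, by rw [abs_of_nonpos h]; ring⟩
  have hl2 : l ^ 2 = 1 / 16 := by rcases hl with h | h <;> rw [h] <;> norm_num
  have hl0 : l ≠ 0 := by rcases hl with h | h <;> rw [h] <;> norm_num
  have hlabs : |l| = 1 / 4 := by rcases hl with h | h <;> rw [h] <;> norm_num [abs_of_pos, abs_of_neg]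
  set H : ℂ → ℂ := fun w => G (1 / 2 + T * I + l * w) * cexp ((l * w) ^ 2) with hH
  have hre : ∀ w : ℂ, (1 / 2 + T * I + l * w : ℂ).re = 1 / 2 + l * w.re := by
    intro w; simp
  have him : ∀ w : ℂ, (1 / 2 + T * I + l * w : ℂ).im = T + l * w.im := by
    intro w; simp
  have hstrip : ∀ w : ℂ, 0 ≤ w.re → w.re ≤ 1 →
      1 / 4 ≤ (1 / 2 + T * I + l * w : ℂ).re ∧ (1 / 2 + T * I + l * w : ℂ).re ≤ 3 / 4 := by
    intro w h0 h1
    rw [hre]
    have : |l * w.re| ≤ 1 / 4 := by
      rw [abs_mul, hlabs, abs_of_nonneg h0]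
      linarith
    have := abs_le.mp this
    constructor <;> linarith
  have hexp : ∀ w : ℂ, 0 ≤ w.re → w.re ≤ 1 →
      ‖cexp ((l * w) ^ 2)‖ ≤ Real.exp 1 * Real.exp (-(l * w.im) ^ 2) := by
    intro w h0 h1
    rw [Complex.norm_exp, ← Real.exp_add]
    refine Real.exp_le_exp.mpr ?_
    have : (((l : ℂ) * w) ^ 2).re = l ^ 2 * (w.re ^ 2 - w.im ^ 2) := by
      rw [mul_pow, ← Complex.ofReal_pow, Complex.re_ofReal_mul, pow_two w, Complex.mul_re]
      ring
    rw [this, mul_pow, hl2]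
    nlinarith
  -- general bound
  have hgen : ∀ w : ℂ, 0 ≤ w.re → w.re ≤ 1 → ‖H w‖ ≤ Q * (1 + T) ^ A := by
    intro w h0 h1
    obtain ⟨s1, s2⟩ := hstrip w h0 h1
    have e1 := hA _ s1 s2
    rw [him] at e1
    have e2 := peetre A (T + l * w.im) T
    rw [hTabs, add_sub_cancel_left, abs_of_nonneg hA0] at e2
    have e3 : (1 + |l * w.im|) ^ A ≤ (2 + |l * w.im|) ^ M := by
      have p1 : 0 ≤ |l * w.im| := abs_nonneg _
      calc (1 + |l * w.im|) ^ A ≤ (2 + |l * w.im|) ^ A := by gcongr; norm_num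
        _ ≤ _ := Real.rpow_le_rpow_of_exponent_le (by linarith) hMA
    have e4 := kern hM0 (l * w.im)
    rw [hH]
    simp only
    rw [norm_mul]
    calc ‖G (1 / 2 + T * I + l * w)‖ * ‖cexp ((l * w) ^ 2)‖
        ≤ (C * ((1 + T) ^ A * (2 + |l * w.im|) ^ M)) *
          (Real.exp 1 * Real.exp (-(l * w.im) ^ 2)) := by
          refine mul_le_mul (e1.trans ?_) (hexp w h0 h1) (norm_nonneg _) (by positivity)
          refine mul_le_mul_of_nonneg_left (e2.trans ?_) hC0.le
          refine mul_le_mul_of_nonneg_left e3 (by positivity)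
      _ = C * Real.exp 1 * ((2 + |l * w.im|) ^ M * Real.exp (-(l * w.im) ^ 2)) * (1 + T) ^ A := by
          ring
      _ ≤ C * Real.exp 1 * K0 * (1 + T) ^ A := by gcongr
      _ = _ := by rw [hQ]
  -- bound on the critical line
  have hline : ∀ w : ℂ, w.re = 0 → ‖H w‖ ≤ Q * (1 + T) ^ k := by
    intro w h0
    obtain ⟨s1, s2⟩ := hstrip w h0.ge (by rw [h0]; norm_num)
    have e1 := hA _ s1 s2
    rw [him] at e1
    have e2 := peetre k (T + l * w.im) T
    rw [hTabs, add_sub_cancel_left] at e2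
    have p1 : 0 ≤ |l * w.im| := abs_nonneg _
    have p2 : 0 ≤ |T + l * w.im| := abs_nonneg _
    have e4 := kern hM0 (l * w.im)
    have e5 : ‖G (1 / 2 + T * I + l * w)‖ ≤
        C * ((1 + T) ^ k * (2 + |l * w.im|) ^ M) := by
      have e6 : (1 + |l * w.im|) ^ |k| ≤ (2 + |l * w.im|) ^ |k| := by gcongr; norm_num
      rcases le_or_gt 1 (T + l * w.im) with h | h
      · have h1 := hk _ h
        have h2 : (1 / 2 : ℂ) + ((T + l * w.im : ℝ) : ℂ) * I = 1 / 2 + T * I + l * w := by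
          apply Complex.ext
          · simp [h0]
          · simp
        rw [h2] at h1
        refine h1.trans (mul_le_mul_of_nonneg_left (e2.trans ?_) hC0.le)
        refine mul_le_mul_of_nonneg_left (e6.trans ?_) (by positivity)
        exact Real.rpow_le_rpow_of_exponent_le (by linarith) (by linarith)
      · have h3 : 1 + |T + l * w.im| ≤ 2 + |l * w.im| := by
          have : |T + l * w.im| ≤ 1 + |l * w.im| := by
            rw [abs_le]
            constructor
            · have := neg_abs_le (l * w.im)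
              linarith
            · linarith
          linarith
        have h4 : (1 + |T + l * w.im|) ^ A = (1 + |T + l * w.im|) ^ k *
            (1 + |T + l * w.im|) ^ (A - k) := by
          rw [← Real.rpow_add (by positivity)]
          congr 1
          ring
        refine e1.trans ?_
        rw [h4]
        refine mul_le_mul_of_nonneg_left ?_ hC0.le
        calc (1 + |T + l * w.im|) ^ k * (1 + |T + l * w.im|) ^ (A - k)
            ≤ ((1 + T) ^ k * (2 + |l * w.im|) ^ |k|) * (2 + |l * w.im|) ^ (A - k) := by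
              refine mul_le_mul (e2.trans ?_) (by gcongr) (by positivity) (by positivity)
              exact mul_le_mul_of_nonneg_left e6 (by positivity)
          _ = _ := by
              rw [mul_assoc, ← Real.rpow_add (by positivity)]
    rw [hH]
    simp only
    rw [norm_mul]
    calc ‖G (1 / 2 + T * I + l * w)‖ * ‖cexp ((l * w) ^ 2)‖
        ≤ (C * ((1 + T) ^ k * (2 + |l * w.im|) ^ M)) *
          (Real.exp 1 * Real.exp (-(l * w.im) ^ 2)) := by
          exact mul_le_mul e5 (hexp w h0.ge (by rw [h0]; norm_num)) (norm_nonneg _) (by positivity)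
      _ = C * Real.exp 1 * ((2 + |l * w.im|) ^ M * Real.exp (-(l * w.im) ^ 2)) * (1 + T) ^ k := by
          ring
      _ ≤ C * Real.exp 1 * K0 * (1 + T) ^ k := by gcongr
      _ = _ := by rw [hQ]
  -- three lines
  have hdiff : ∀ w : ℂ, 0 ≤ w.re → w.re ≤ 1 → DifferentiableAt ℂ H w := by
    intro w h0 h1
    obtain ⟨s1, s2⟩ := hstrip w h0 h1
    have := hd _ s1 s2
    refine DifferentiableAt.mul ?_ (by fun_prop)
    exact DifferentiableAt.comp (g := G) w this (by fun_prop)
  have hcl : DiffContOnCl ℂ H (HadamardThreeLines.verticalStrip 0 1) := by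
    apply DifferentiableOn.diffContOnCl
    intro w hw
    have hw' : w ∈ re ⁻¹' Icc (0 : ℝ) 1 := by
      have hclosed : IsClosed (re ⁻¹' Icc (0 : ℝ) 1) := isClosed_Icc.preimage continuous_re
      refine closure_minimal ?_ hclosed hw
      intro x hx
      exact ⟨hx.1.le, hx.2.le⟩
    exact (hdiff w hw'.1 hw'.2).differentiableWithinAt
  set w0 : ℂ := z / l with hw0
  have hlc : (l : ℂ) ≠ 0 := by exact_mod_cast hl0
  have hw0re : w0.re = 4 * |z.re| := by
    rw [hw0, Complex.div_ofReal_re, hlz]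
  have hzre : |z.re| ≤ 1 / 4 := (Complex.abs_re_le_norm z).trans hz
  have h01 : 0 ≤ w0.re ∧ w0.re ≤ 1 := by
    rw [hw0re]
    constructor
    · positivity
    · linarith
  have hfin := HadamardThreeLines.norm_le_interp_of_mem_verticalClosedStrip₀₁' H (z := w0)
    (a := Q * (1 + T) ^ k) (b := Q * (1 + T) ^ A) h01 hcl
    ⟨Q * (1 + T) ^ A, by
      rintro _ ⟨w, hw, rfl⟩
      exact hgen w hw.1 hw.2⟩
    (fun w hw => hline w hw) (fun w hw => hgen w (by rw [show w.re = 1 from hw]; norm_num)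
      (by rw [show w.re = 1 from hw]))
  have hT1 : 0 < 1 + T := by linarith
  have e7 : (Q * (1 + T) ^ k) ^ (1 - w0.re) * (Q * (1 + T) ^ A) ^ w0.re =
      Q * (1 + T) ^ (k + 4 * |z.re| * (A - k)) := by
    rw [Real.mul_rpow hQpos.le (by positivity), Real.mul_rpow hQpos.le (by positivity),
      ← Real.rpow_mul hT1.le, ← Real.rpow_mul hT1.le]
    have h1 : Q ^ (1 - w0.re) * Q ^ w0.re = Q := by
      rw [← Real.rpow_add hQpos, sub_add_cancel, Real.rpow_one]
    have h2 : (1 + T) ^ (k * (1 - w0.re)) * (1 + T) ^ (A * w0.re) =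
        (1 + T) ^ (k + 4 * |z.re| * (A - k)) := by
      rw [← Real.rpow_add hT1, ← hw0re]
      congr 1
      ring
    calc Q ^ (1 - w0.re) * (1 + T) ^ (k * (1 - w0.re)) * (Q ^ w0.re * (1 + T) ^ (A * w0.re))
        = (Q ^ (1 - w0.re) * Q ^ w0.re) *
          ((1 + T) ^ (k * (1 - w0.re)) * (1 + T) ^ (A * w0.re)) := by ring
      _ = _ := by rw [h1, h2]
  rw [e7] at hfin
  have hlw : (l : ℂ) * w0 = z := by
    rw [hw0]
    field_simp
  have e8 : G (1 / 2 + T * I + z) = H w0 * cexp (-z ^ 2) := by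
    rw [hH]
    simp only
    rw [hlw, mul_assoc, ← Complex.exp_add, add_neg_cancel, Complex.exp_zero, mul_one]
  have e9 : ‖cexp (-z ^ 2)‖ ≤ Real.exp 1 := by
    rw [Complex.norm_exp]
    refine Real.exp_le_exp.mpr ?_
    refine (Complex.re_le_norm _).trans ?_
    rw [norm_neg, norm_pow]
    nlinarith [norm_nonneg z]
  rw [e8, norm_mul]
  calc ‖H w0‖ * ‖cexp (-z ^ 2)‖ ≤ (Q * (1 + T) ^ (k + 4 * |z.re| * (A - k))) * Real.exp 1 :=
        mul_le_mul hfin e9 (norm_nonneg _) (by positivity)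
    _ = _ := by ring

end Pool.Agent.H201.Hz
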